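import Pool.Agent.Helper93.MCF.Fin
import Pool.Agent.Helper35.PI.Defs

/-!
# `ForcesCodimOne 2 c → c ≤ 5/6` in the definitions of project PI
-/

set_option autoImplicit false

namespace Pool.Agent.Helper93.MCF

open Set Filter Topology Metric Module MeasureTheory
open scoped Manifold ContDiff RealInnerProductSpace ENNReal NNReal

open Helper35.PI in
lemma loc_VF (p : S2) (t : ℝ) : loc (n := 2) VF p t = fr (√(-(4 * t))) p := by
  have h := lrep_ver (√(-(4 * t))) p
  funext x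
  have h2 := congrFun h x
  exact h2

lemma chartAt_self (p : S2) : chartAt (Eu 2) p p = 0 := ctr_eq p

lemma ee_bv (i : Fin 2) : (Helper35.PI.ee i : Eu 2) = bv i := rfl

lemma gramPI_eq (r : ℝ) (p : S2) : Helper35.PI.gram (fr r p) 0 = gram (fr r p) 0 := rfl

lemma dv2_eq (r : ℝ) (p : S2) (i j : Fin 2) : Helper35.PI.dv2 (fr r p) 0 i j =
    (2 * r) • (B (io p (bv i)) (io p (bv j)) - ⟪(bv i : Eu 2), bv j⟫ • B (p : Eu 3) (p : Eu 3)) := by
  have hsm : ContDiff ℝ ∞ (fr r p) :=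
    ((contDiff_Gp p).comp (io p).contDiff).const_smul r
  have hd : DifferentiableAt ℝ (fderiv ℝ (fr r p)) 0 :=
    ((hsm.fderiv_right (m := 1) (by norm_cast)).differentiable (by norm_num)) 0
  have h1 := dd_dd (fr r p) 0 (bv i) (bv j) hd
  have h2 : Helper35.PI.dv2 (fr r p) 0 i j = dd (fun y => dd (fr r p) y (bv j)) 0 (bv i) := rfl
  rw [h2, h1]
  exact fderiv2_rep0 r p (bv i) (bv j)

lemma sffPI_eq (r : ℝ) (p : S2) (i j : Fin 2) :
    Helper35.PI.sff (fr r p) 0 i j = sff (fr r p) 0 i j := by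
  rw [sff_fr]
  unfold Helper35.PI.sff Helper35.PI.nrm
  rw [dv2_eq]
  have h0 : ∀ k : Fin 2, ⟪(2 * r) • (B (io p (bv i)) (io p (bv j)) -
      ⟪(bv i : Eu 2), bv j⟫ • B (p : Eu 3) (p : Eu 3)), Helper35.PI.dv1 (fr r p) 0 k⟫ = 0 := by
    intro k
    have e : Helper35.PI.dv1 (fr r p) 0 k = (2 * r) • B (p : Eu 3) (io p (bv k)) :=
      fderiv_rep0 r p (bv k)
    rw [e]
    simp only [inner_smul_left, inner_smul_right, inner_sub_left, inner_B, inner_pp, inner_p_io,
      inner_io_p, conj_trivial]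
    ring
  have h1 : ∀ k : Fin 2, inner ℝ ((2 * r) • (B (io p (bv i)) (io p (bv j)) -
      ⟪(bv i : Eu 2), bv j⟫ • B (p : Eu 3) (p : Eu 3))) (Helper35.PI.dv1 (fr r p) 0 k) = 0 := h0
  simp only [h1, mul_zero, zero_smul, Finset.sum_const_zero, sub_zero]

lemma HH_VF (p : S2) (t : ℝ) : Helper35.PI.HH (n := 2) VF p t = Hvec 2 (VF · t) p := by
  unfold Helper35.PI.HH
  rw [loc_VF, chartAt_self]
  have e : Hvec 2 (VF · t) p = mcv (fr (√(-(4 * t))) p) 0 := by
    unfold Hvec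
    rw [ctr_eq]
    have h : lrep (n := 2) (VF · t) p = fr (√(-(4 * t))) p := lrep_ver _ p
    rw [h]
  rw [e]
  unfold Helper35.PI.mcv mcv
  simp only [sffPI_eq, gramPI_eq]

lemma AA_VF (p : S2) (t : ℝ) : Helper35.PI.AA (n := 2) VF p t = Asq 2 (VF · t) p := by
  unfold Helper35.PI.AA
  rw [loc_VF, chartAt_self]
  have e : Asq 2 (VF · t) p = asq (fr (√(-(4 * t))) p) 0 := by
    unfold Asq
    rw [ctr_eq]
    have h : lrep (n := 2) (VF · t) p = fr (√(-(4 * t))) p := lrep_ver _ p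
    rw [h]
  rw [e]
  unfold Helper35.PI.nsq asq
  simp only [sffPI_eq, gramPI_eq]
  rfl

lemma isMCF_VF : Helper35.PI.IsMCF (n := 2) VF where
  smooth := smooth_VF
  imm := by
    intro p t ht
    rw [loc_VF, chartAt_self]
    have hinj : Function.Injective (fderiv ℝ (fr (√(-(4 * t))) p) 0) := by
      have h := immersion_ver _ (rad_pos ht) p
      rw [ctr_eq, lrep_ver] at h
      exact h
    have hb : LinearIndependent ℝ (fun i : Fin 2 => (bv i : Eu 2)) := by
      have h := (EuclideanSpace.basisFun (Fin 2) ℝ).toBasis.linearIndependent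
      have e : (fun i : Fin 2 => (bv i : Eu 2)) = (EuclideanSpace.basisFun (Fin 2) ℝ).toBasis := by
        funext i
        simp [bv]
      rw [e]
      exact h
    have h2 := hb.map' (fderiv ℝ (fr (√(-(4 * t))) p) 0 : Eu 2 →ₗ[ℝ] Eu 5)
      (LinearMap.ker_eq_bot.mpr hinj)
    exact h2
  flow := by
    intro p t ht
    rw [HH_VF]
    exact flow_VF ht p

/-- the length distance of two points of a path -/
lemma idist_path (f : S2 → Eu 5) (γ : ℝ → S2) (s s' : ℝ) (hs : 0 ≤ s) (hss : s ≤ s') (hs' : s' < 1)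
    (hγ : ContinuousOn γ (Ico 0 1)) :
    idist f (γ s) (γ s') ≤ eVariationOn (fun x => f (γ x)) (Ico 0 1 ∩ Icc s s') := by
  unfold idist
  set φ : ℝ → ℝ := fun τ => s + τ * (s' - s) with hφ
  have hmaps : MapsTo φ (Icc 0 1) (Ico 0 1 ∩ Icc s s') := by
    intro τ hτ
    have h0 : 0 ≤ s' - s := by linarith
    have h1 : 0 ≤ τ * (s' - s) := mul_nonneg hτ.1 h0
    have h2 : τ * (s' - s) ≤ 1 * (s' - s) := mul_le_mul_of_nonneg_right hτ.2 h0
    refine ⟨⟨?_, ?_⟩, ?_, ?_⟩ <;> simp only [hφ] <;> linarith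
  have hmono : MonotoneOn φ (Icc 0 1) := by
    intro a _ b _ hab
    have h0 : 0 ≤ s' - s := by linarith
    have := mul_le_mul_of_nonneg_right hab h0
    simp only [hφ]
    linarith
  have hc : ContinuousOn (γ ∘ φ) (Icc 0 1) :=
    hγ.comp (by fun_prop) (fun τ hτ => (hmaps hτ).1)
  refine le_trans (iInf_le _ ⟨γ ∘ φ, hc, ?_, ?_⟩) ?_
  · exact eVariationOn.comp_le_of_monotoneOn (fun x => f (γ x)) φ hmono hmaps
  · simp [hφ]
  · simp [hφ]

lemma completeAt_VF (t : ℝ) (ht : t < 0) : Helper35.PI.IsCompleteAt VF t := by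
  intro γ hγ hbv
  have hr := rad_pos ht
  set r := √(-(4 * t)) with hrdef
  set f : ℝ → Eu 5 := fun s => VF (γ s) t with hf
  have hl : LocallyBoundedVariationOn f (Ico 0 1) := hbv.locallyBoundedVariationOn
  have h0 : (0 : ℝ) ∈ Ico (0 : ℝ) 1 := ⟨le_rfl, one_pos⟩
  set v : ℝ → ℝ := variationOnFromTo f (Ico 0 1) 0 with hv
  have hmono : MonotoneOn v (Ico 0 1) := variationOnFromTo.monotoneOn hl h0
  have hbdd : ∀ s ∈ Ico (0 : ℝ) 1, v s ≤ (eVariationOn f (Ico 0 1)).toReal := by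
    intro s hs
    simp only [hv]
    rw [variationOnFromTo.eq_of_le _ _ hs.1]
    exact ENNReal.toReal_mono hbv (eVariationOn.mono _ inter_subset_left)
  -- the supremum of the variation
  set W : ℝ := sSup (v '' Ico 0 1) with hW
  have hne : (v '' Ico (0 : ℝ) 1).Nonempty := ⟨v 0, 0, h0, rfl⟩
  have hB : BddAbove (v '' Ico (0 : ℝ) 1) := by
    refine ⟨(eVariationOn f (Ico 0 1)).toReal, ?_⟩
    rintro _ ⟨s, hs, rfl⟩
    exact hbdd s hs
  have hCau : Cauchy (map γ (𝓝[<] (1 : ℝ))) := by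
    rw [Metric.cauchy_iff]
    refine ⟨inferInstance, fun ε hε => ?_⟩
    set δ : ℝ := min r (r * ε / 4) with hδ
    have hδ0 : 0 < δ := lt_min hr (by positivity)
    have hδ1 : δ ^ 2 ≤ 3 * r ^ 2 := by
      have h1 : δ ≤ r := min_le_left _ _
      nlinarith [mul_self_nonneg r]
    obtain ⟨_, ⟨s0, hs0, rfl⟩, hs0'⟩ := exists_lt_of_lt_csSup hne (show W - δ < sSup (v '' Ico 0 1) by
      rw [← hW]; linarith)
    have hclose : ∀ s ∈ Ico s0 1, ∀ s' ∈ Ico s0 1, s ≤ s' → ‖((γ s' : S2) : Eu 3) - γ s‖ ≤ ε / 4 := by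
      intro s hs s' hs' hle
      have hsm : s ∈ Ico (0 : ℝ) 1 := ⟨hs0.1.trans hs.1, hs.2⟩
      have hsm' : s' ∈ Ico (0 : ℝ) 1 := ⟨hs0.1.trans hs'.1, hs'.2⟩
      have h1 := idist_path (ver r) γ s s' hsm.1 hle hs'.2 hγ
      have h2 : (eVariationOn (fun x => ver r (γ x)) (Ico 0 1 ∩ Icc s s')).toReal < δ := by
        have e1 : (eVariationOn f (Ico 0 1 ∩ Icc s s')).toReal = variationOnFromTo f (Ico 0 1) s s' :=
          (variationOnFromTo.eq_of_le _ _ hle).symm
        have e2 : v s + variationOnFromTo f (Ico 0 1) s s' = v s' :=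
          variationOnFromTo.add hl h0 hsm hsm'
        have h3 : v s0 ≤ v s := hmono hs0 hsm hs.1
        have h4 : v s' ≤ W := le_csSup hB ⟨s', hsm', rfl⟩
        have e3 : (eVariationOn (fun x => ver r (γ x)) (Ico 0 1 ∩ Icc s s')).toReal =
            (eVariationOn f (Ico 0 1 ∩ Icc s s')).toReal := rfl
        rw [e3, e1]
        linarith
      have h5 : eVariationOn (fun x => ver r (γ x)) (Ico 0 1 ∩ Icc s s') ≠ ⊤ := by
        have h6 : eVariationOn f (Ico 0 1 ∩ Icc s s') ≤ eVariationOn f (Ico 0 1) :=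
          eVariationOn.mono _ inter_subset_left
        exact ne_top_of_le_ne_top hbv h6
      have h7 : idist (ver r) (γ s) (γ s') < ENNReal.ofReal δ := by
        refine lt_of_le_of_lt h1 ?_
        rw [ENNReal.lt_ofReal_iff_toReal_lt h5]
        exact h2
      have h8 := idist_small r δ hr hδ0 hδ1 (γ s) (γ s') h7
      have h9 : δ / r ≤ ε / 4 := by
        rw [div_le_iff₀ hr]
        calc δ ≤ r * ε / 4 := min_le_right _ _
          _ = ε / 4 * r := by ring
      linarith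
    refine ⟨γ '' Ico s0 1, image_mem_map (Ico_mem_nhdsLT hs0.2), ?_⟩
    rintro _ ⟨s, hs, rfl⟩ _ ⟨s', hs', rfl⟩
    rw [Subtype.dist_eq, dist_eq_norm]
    rcases le_total s s' with h | h
    · have := hclose s hs s' hs' h
      rw [norm_sub_rev]
      linarith
    · have := hclose s' hs' s hs h
      linarith
  haveI : CompleteSpace S2 := isClosed_sphere.completeSpace_coe
  obtain ⟨q, hq⟩ := CompleteSpace.complete hCau
  exact ⟨q, hq⟩

lemma ancientMCF_VF : Helper35.PI.AncientMCF (n := 2) VF where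
  mcf := isMCF_VF
  complete := completeAt_VF
  entropy := by
    refine ⟨entB, entB_lt.ne, fun t ht x₀ lam hlam => ?_⟩
    refine le_trans ?_ (entropy_ver _ (rad_pos ht))
    exact le_iSup_of_le x₀ (le_iSup_of_le ⟨lam, hlam⟩ le_rfl)
  growth := by
    intro t ht
    refine ⟨10 / (3 * (√(-(4 * t))) ^ 2), 0, fun p => ?_⟩
    rw [AA_VF, Real.rpow_zero, mul_one]
    exact le_of_eq (Asq_ver _ (rad_pos ht) p)

/-- the upper bound `c*(2) ≤ 5/6` in the definitions of project PI -/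
theorem forcesPI_two_le (c : ℝ) (hF : Helper35.PI.ForcesCodimOne 2 c) : c ≤ 5 / 6 := by
  by_contra hcon
  push Not at hcon
  have hconn : ConnectedSpace S2 := by
    have h : IsConnected (sphere (0 : Eu 3) 1) := by
      apply isConnected_sphere _ _ zero_le_one
      rw [← Module.finrank_eq_rank, finrank_euclideanSpace_fin]
      norm_num
    exact isConnected_iff_connectedSpace.mp h
  have hM : IsManifold 𝓘(ℝ, Eu 2) ∞ S2 := by
    have h : IsManifold 𝓘(ℝ, Eu 2) ω S2 := EuclideanSpace.instIsManifoldSphere (E := Eu 3) (n := 2)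
    exact IsManifold.of_le (n := ω) le_top
  have hP : Helper35.PI.Pinched 2 c VF := by
    refine ⟨c - 5 / 6, by linarith, fun p t ht => ?_⟩
    rw [AA_VF, HH_VF]
    have := ratio_ver _ (rad_pos ht) p
    have e : Asq 2 (VF · t) p = 5 / 6 * ‖Hvec 2 (VF · t) p‖ ^ 2 := this
    rw [e]
    apply le_of_eq
    ring
  obtain ⟨S, hS1, hS2⟩ := hF 5 (by norm_num) S2 VF ancientMCF_VF hP
  have h1 := full_VF (-1) (by norm_num) S (fun p => hS2 p (-1) (by norm_num))
  rw [h1, finrank_top, finrank_euclideanSpace_fin] at hS1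
  norm_num at hS1

/-- `c*(2) ≤ 5/6` for the supremum in the extended reals -/
theorem cStarPI_two_le : Helper35.PI.cStar 2 ≤ ((5 / 6 : ℝ) : EReal) := by
  apply sSup_le
  rintro _ ⟨c, rfl, _, hc⟩
  exact EReal.coe_le_coe_iff.mpr (forcesPI_two_le c hc)

end Pool.Agent.Helper93.MCF
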