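import Pool.Agent.Helper93.MCF.Defs

/-!
# First and second derivative of `B(S, S)`, `S` the inverse stereographic projection, at the centre
-/

set_option autoImplicit false

namespace Pool.Agent.Helper93.MCF

open Set Filter Topology Metric
open scoped Manifold ContDiff RealInnerProductSpace

section S

variable {E F : Type} [NormedAddCommGroup E] [InnerProductSpace ℝ E]
  [NormedAddCommGroup F] [NormedSpace ℝ F]

/-- derivative of `w ↦ ‖w‖^2` -/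
private lemma hq (w : E) : HasFDerivAt (fun w : E => ‖w‖ ^ 2) ((2 : ℝ) • innerSL ℝ w) w := by
  have := (hasStrictFDerivAt_norm_sq w).hasFDerivAt
  convert this using 1
  ext v
  simp

/-- the derivative of the inverse stereographic map -/
noncomputable def sD (v₀ w : E) : E →L[ℝ] E :=
  (‖w‖ ^ 2 + 4)⁻¹ • ((4 : ℝ) • ContinuousLinearMap.id ℝ E + ((2 : ℝ) • innerSL ℝ w).smulRight v₀) +
    ((-((‖w‖ ^ 2 + 4) ^ 2)⁻¹) • ((2 : ℝ) • innerSL ℝ w)).smulRight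
      ((4 : ℝ) • w + (‖w‖ ^ 2 - 4) • v₀)

lemma hasFDerivAt_ster (v₀ w : E) : HasFDerivAt (stereoInvFunAux v₀) (sD v₀ w) w := by
  have hpos : ‖w‖ ^ 2 + 4 ≠ 0 := by positivity
  have h1 : HasFDerivAt (fun w : E => (‖w‖ ^ 2 + 4)⁻¹)
      ((-((‖w‖ ^ 2 + 4) ^ 2)⁻¹) • ((2 : ℝ) • innerSL ℝ w)) w := by
    have h := (hasDerivAt_inv hpos).comp_hasFDerivAt w ((hq w).add_const 4)
    exact h
  have h2 : HasFDerivAt (fun w : E => (4 : ℝ) • w + (‖w‖ ^ 2 - 4) • v₀)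
      ((4 : ℝ) • ContinuousLinearMap.id ℝ E + ((2 : ℝ) • innerSL ℝ w).smulRight v₀) w := by
    have h3 := ((hq w).sub_const 4).smul_const v₀
    have h4 := (hasFDerivAt_id (𝕜 := ℝ) w).const_smul (4 : ℝ)
    exact h4.add h3
  exact h1.smul h2

lemma ster_zero (v₀ : E) : stereoInvFunAux v₀ (0 : E) = -v₀ := by
  simp [stereoInvFunAux]

lemma sD_zero (v₀ : E) : sD v₀ (0 : E) = ContinuousLinearMap.id ℝ E := by
  ext b
  simp [sD]

/-- derivative of the derivative along a line -/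
lemma hasDerivAt_sD (v₀ a b : E) :
    HasDerivAt (fun s : ℝ => sD v₀ (s • a) b) (⟪a, b⟫ • v₀) 0 := by
  have hn : HasDerivAt (fun s : ℝ => ‖s • a‖ ^ 2) 0 0 := by
    have h : HasDerivAt (fun s : ℝ => s ^ 2 * ‖a‖ ^ 2) ((((2 : ℕ) : ℝ) * (0 : ℝ) ^ (2 - 1)) * ‖a‖ ^ 2) 0 :=
      (hasDerivAt_pow 2 (0 : ℝ)).mul_const _
    simp only [Nat.add_one_sub_one, pow_one, mul_zero, zero_mul] at h
    convert h using 2
    rw [norm_smul, mul_pow, Real.norm_eq_abs, sq_abs]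
  have hα : HasDerivAt (fun s : ℝ => (‖s • a‖ ^ 2 + 4)⁻¹) 0 0 :=
    ((hn.add_const 4).inv (by positivity)).congr_deriv (by simp)
  have hβ : HasDerivAt (fun s : ℝ => 2 * (s * ⟪a, b⟫)) (2 * ⟪a, b⟫) 0 :=
    (((hasDerivAt_id (0 : ℝ)).mul_const ⟪a, b⟫).const_mul 2).congr_deriv (by simp)
  have hγ : HasDerivAt (fun s : ℝ => (-((‖s • a‖ ^ 2 + 4) ^ 2)⁻¹) * (2 * (s * ⟪a, b⟫)))
      (-(1 / 8) * ⟪a, b⟫) 0 := by
    have h1 : HasDerivAt (fun s : ℝ => (-((‖s • a‖ ^ 2 + 4) ^ 2)⁻¹)) 0 0 :=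
      ((((hn.add_const 4).fun_pow 2).inv (by positivity)).neg).congr_deriv (by simp)
    refine (h1.mul hβ).congr_deriv ?_
    norm_num
    ring
  have hP : HasDerivAt (fun s : ℝ => (4 : ℝ) • (s • a) + (‖s • a‖ ^ 2 - 4) • v₀) ((4 : ℝ) • a) 0 := by
    have h1 : HasDerivAt (fun s : ℝ => (4 : ℝ) • (s • a)) ((4 : ℝ) • a) 0 :=
      (((hasDerivAt_id (0 : ℝ)).smul_const a).const_smul (4 : ℝ)).congr_deriv (by simp)
    have h2 : HasDerivAt (fun s : ℝ => (‖s • a‖ ^ 2 - 4) • v₀) ((0 : ℝ) • v₀) 0 :=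
      (hn.sub_const 4).smul_const v₀
    exact (h1.add h2).congr_deriv (by simp)
  have hM : HasDerivAt (fun s : ℝ => (‖s • a‖ ^ 2 + 4)⁻¹ • ((4 : ℝ) • b + (2 * (s * ⟪a, b⟫)) • v₀))
      ((1 / 2 * ⟪a, b⟫) • v₀) 0 := by
    have h1 : HasDerivAt (fun s : ℝ => ((4 : ℝ) • b + (2 * (s * ⟪a, b⟫)) • v₀))
        ((2 * ⟪a, b⟫) • v₀) 0 := (hβ.smul_const v₀).const_add ((4 : ℝ) • b)
    refine (hα.smul h1).congr_deriv ?_
    simp [smul_smul]
    congr 1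
    ring
  have e1 : (fun s : ℝ => sD v₀ (s • a) b) =
      fun s : ℝ => (‖s • a‖ ^ 2 + 4)⁻¹ • ((4 : ℝ) • b + (2 * (s * ⟪a, b⟫)) • v₀) +
        ((-((‖s • a‖ ^ 2 + 4) ^ 2)⁻¹) * (2 * (s * ⟪a, b⟫))) •
          ((4 : ℝ) • (s • a) + (‖s • a‖ ^ 2 - 4) • v₀) := by
    funext s
    simp [sD, inner_smul_left]
  rw [e1]
  refine (hM.add (hγ.smul hP)).congr_deriv ?_
  simp [smul_smul]
  rw [← add_smul]
  congr 1
  ring

/-- `B(S, S)` -/
lemma hasFDerivAt_BS (B : E →L[ℝ] E →L[ℝ] F) (hB : ∀ x y, B x y = B y x) (v₀ w : E) :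
    HasFDerivAt (fun w => B (stereoInvFunAux v₀ w) (stereoInvFunAux v₀ w))
      ((2 : ℝ) • (B (stereoInvFunAux v₀ w)).comp (sD v₀ w)) w := by
  have h := B.hasFDerivAt_of_bilinear (hasFDerivAt_ster v₀ w) (hasFDerivAt_ster v₀ w)
  convert h using 1
  ext b
  have e := hB (sD v₀ w b) (stereoInvFunAux v₀ w)
  rw [ContinuousLinearMap.add_apply, ContinuousLinearMap.smul_apply, two_smul]
  congr 1
  exact e.symm

lemma contDiff_BS (B : E →L[ℝ] E →L[ℝ] F) (v₀ : E) :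
    ContDiff ℝ ∞ (fun w => B (stereoInvFunAux v₀ w) (stereoInvFunAux v₀ w)) := by
  have h : ContDiff ℝ ∞ (stereoInvFunAux v₀) := contDiff_stereoInvFunAux
  exact (B.contDiff.comp h).clm_apply h

/-- second derivative of `B(S, S)` at the centre -/
lemma fderiv2_BS (B : E →L[ℝ] E →L[ℝ] F) (hB : ∀ x y, B x y = B y x) (v₀ a b : E) :
    fderiv ℝ (fderiv ℝ (fun w => B (stereoInvFunAux v₀ w) (stereoInvFunAux v₀ w))) 0 a b =
      (2 : ℝ) • (B a b - ⟪a, b⟫ • B v₀ v₀) := by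
  set G : E → F := fun w => B (stereoInvFunAux v₀ w) (stereoInvFunAux v₀ w) with hG
  have hG1 : ∀ w, fderiv ℝ G w = (2 : ℝ) • (B (stereoInvFunAux v₀ w)).comp (sD v₀ w) :=
    fun w => (hasFDerivAt_BS B hB v₀ w).fderiv
  have hd : Differentiable ℝ (fderiv ℝ G) :=
    ((contDiff_BS B v₀).fderiv_right (m := 1) (by norm_cast)).differentiable (by norm_num)
  have h2 : HasDerivAt (fun s : ℝ => s • a) a 0 :=
    ((hasDerivAt_id (0 : ℝ)).smul_const a).congr_deriv (by simp)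
  have h1 : HasDerivAt (fun s : ℝ => fderiv ℝ G (s • a) b) (fderiv ℝ (fderiv ℝ G) 0 a b) 0 := by
    have h3 : HasFDerivAt (fderiv ℝ G) (fderiv ℝ (fderiv ℝ G) 0) ((0 : ℝ) • a) := by
      rw [zero_smul]
      exact (hd 0).hasFDerivAt
    have h4 := h3.comp_hasDerivAt (0 : ℝ) h2
    exact (h4.clm_apply (hasDerivAt_const (0 : ℝ) b)).congr_deriv (by simp)
  have h5 : HasDerivAt (fun s : ℝ => (2 : ℝ) • B (stereoInvFunAux v₀ (s • a)) (sD v₀ (s • a) b))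
      ((2 : ℝ) • (B a b - ⟪a, b⟫ • B v₀ v₀)) 0 := by
    have h3 : HasDerivAt (fun s : ℝ => stereoInvFunAux v₀ (s • a)) a 0 := by
      have h : HasFDerivAt (stereoInvFunAux v₀) (sD v₀ 0) ((0 : ℝ) • a) := by
        rw [zero_smul]; exact hasFDerivAt_ster v₀ 0
      have h' := h.comp_hasDerivAt (0 : ℝ) h2
      rw [sD_zero] at h'
      exact h'
    have h4 := (B.hasFDerivAt.comp_hasDerivAt (0 : ℝ) h3).clm_apply (hasDerivAt_sD v₀ a b)
    refine (h4.const_smul (2 : ℝ)).congr_deriv ?_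
    simp only [zero_smul, sD_zero, ster_zero, Function.comp_apply, ContinuousLinearMap.id_apply,
      map_neg, map_smul, ContinuousLinearMap.neg_apply, ContinuousLinearMap.coe_id', id_eq]
    rw [smul_neg, ← sub_eq_add_neg]
  have h7 : (fun s : ℝ => fderiv ℝ G (s • a) b) =
      fun s : ℝ => (2 : ℝ) • B (stereoInvFunAux v₀ (s • a)) (sD v₀ (s • a) b) := by
    funext s
    rw [hG1]
    rfl
  rw [h7] at h1
  exact h1.unique h5

end S

end Pool.Agent.Helper93.MCF
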