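import Pool.Agent.Helper93.MCF.Ver

/-!
# Geometry of the Veronese surface in the stereographic charts
-/

set_option autoImplicit false

namespace Pool.Agent.Helper93.MCF

open Set Filter Topology Metric Module
open scoped Manifold ContDiff RealInnerProductSpace

/-- the unit sphere of `ℝ³` -/
abbrev S2 : Type := sphere (0 : Eu 3) 1

instance factE3 : Fact (finrank ℝ (Eu 3) = 2 + 1) := Fact.mk (@finrank_euclideanSpace_fin ℝ _ 3)

/-- the coordinates of the tangent plane -/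
noncomputable def Uu (p : S2) : (ℝ ∙ ((-p : S2) : Eu 3))ᗮ ≃ₗᵢ[ℝ] Eu 2 :=
  (OrthonormalBasis.fromOrthogonalSpanSingleton 2 (ne_zero_of_mem_unit_sphere (-p))).repr

/-- inclusion of the tangent plane -/
noncomputable def io (p : S2) : Eu 2 →L[ℝ] Eu 3 :=
  ((ℝ ∙ ((-p : S2) : Eu 3))ᗮ).subtypeL.comp
    ((Uu p).symm.toContinuousLinearEquiv : Eu 2 →L[ℝ] (ℝ ∙ ((-p : S2) : Eu 3))ᗮ)

lemma norm_p (p : S2) : ‖(p : Eu 3)‖ = 1 := by simpa using p.2

lemma inner_io (p : S2) (x y : Eu 2) : ⟪io p x, io p y⟫ = ⟪x, y⟫ := by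
  have h := (Uu p).symm.inner_map_map x y
  rw [← h]
  rfl

lemma inner_io_p (p : S2) (x : Eu 2) : ⟪io p x, (p : Eu 3)⟫ = 0 := by
  have h := ((Uu p).symm x).2
  rw [Submodule.mem_orthogonal_singleton_iff_inner_left] at h
  have h2 : ⟪io p x, ((-p : S2) : Eu 3)⟫ = 0 := h
  rw [coe_neg_sphere, inner_neg_right] at h2
  linarith

/-- the inverse chart at `p` -/
lemma chart_symm (p : S2) (x : Eu 2) :
    (((extChartAt 𝓘(ℝ, Eu 2) p).symm x : S2) : Eu 3) =
      stereoInvFunAux (((-p : S2) : Eu 3)) (io p x) := by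
  have h := stereographic'_symm_apply (n := 2) (-p) x
  have e : (((extChartAt 𝓘(ℝ, Eu 2) p).symm x : S2) : Eu 3) = ((stereographic' 2 (-p)).symm x : Eu 3) := by
    simp [extChartAt, chartAt, ChartedSpace.chartAt]
  rw [e, h]
  simp only [stereoInvFunAux_apply, smul_add]
  rfl

lemma ster_neg (p : S2) : stereoInvFunAux (((-p : S2) : Eu 3)) (0 : Eu 3) = (p : Eu 3) := by
  rw [ster_zero, coe_neg_sphere, neg_neg]

lemma ctr_eq (p : S2) : ctr 2 p = 0 := by
  have h1 : ((extChartAt 𝓘(ℝ, Eu 2) p).symm (0 : Eu 2) : S2) = p := by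
    apply Subtype.ext
    rw [chart_symm, map_zero, ster_neg]
  have h2 : (0 : Eu 2) ∈ (extChartAt 𝓘(ℝ, Eu 2) p).target := by
    simp [extChartAt, chartAt, ChartedSpace.chartAt]
  have h3 := (extChartAt 𝓘(ℝ, Eu 2) p).right_inv h2
  rw [h1] at h3
  exact h3

/-- the Veronese surface of radius `r` -/
noncomputable def ver (r : ℝ) (p : S2) : Eu 5 := r • B (p : Eu 3) (p : Eu 3)

/-- `B(S, S)` for the chart at `p` -/
noncomputable def Gp (p : S2) (w : Eu 3) : Eu 5 :=
  B (stereoInvFunAux (((-p : S2) : Eu 3)) w) (stereoInvFunAux (((-p : S2) : Eu 3)) w)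

lemma lrep_ver (r : ℝ) (p : S2) : lrep (n := 2) (ver r) p = fun x => r • Gp p (io p x) := by
  funext x
  simp only [lrep, Function.comp_apply, ver, Gp, chart_symm]

lemma contDiff_Gp (p : S2) : ContDiff ℝ ∞ (Gp p) := contDiff_BS B _

lemma fderiv_rep (r : ℝ) (p : S2) (x : Eu 2) :
    fderiv ℝ (fun x => r • Gp p (io p x)) x = r • (fderiv ℝ (Gp p) (io p x)).comp (io p) := by
  have hd : Differentiable ℝ (Gp p) := (contDiff_Gp p).differentiable (by norm_num)
  have h := (((hd (io p x)).hasFDerivAt).comp x (io p).hasFDerivAt).const_smul r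
  exact h.fderiv

lemma fderiv_rep0 (r : ℝ) (p : S2) (v : Eu 2) :
    fderiv ℝ (fun x => r • Gp p (io p x)) 0 v = (2 * r) • B (p : Eu 3) (io p v) := by
  rw [fderiv_rep]
  simp only [map_zero]
  have h := (hasFDerivAt_BS B B_symm (((-p : S2) : Eu 3)) 0).fderiv
  have h' : fderiv ℝ (Gp p) 0 = _ := h
  rw [h', sD_zero, ster_zero, coe_neg_sphere, neg_neg]
  simp only [ContinuousLinearMap.smul_apply, ContinuousLinearMap.comp_apply,
    ContinuousLinearMap.id_apply, smul_smul]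
  rw [mul_comm]

lemma fderiv2_rep0 (r : ℝ) (p : S2) (v w : Eu 2) :
    fderiv ℝ (fderiv ℝ (fun x => r • Gp p (io p x))) 0 v w =
      (2 * r) • (B (io p v) (io p w) - ⟪v, w⟫ • B (p : Eu 3) (p : Eu 3)) := by
  have e : fderiv ℝ (fun x => r • Gp p (io p x)) =
      fun x => r • (fderiv ℝ (Gp p) (io p x)).comp (io p) := by
    funext x; exact fderiv_rep r p x
  rw [e]
  have hd : Differentiable ℝ (fderiv ℝ (Gp p)) :=
    ((contDiff_Gp p).fderiv_right (m := 1) (by norm_cast)).differentiable (by norm_num)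
  have h1 := ((hd (io p 0)).hasFDerivAt).comp (0 : Eu 2) (io p).hasFDerivAt
  have h2 := (h1.clm_comp (hasFDerivAt_const (io p) (0 : Eu 2))).const_smul r
  have h3 := h2.fderiv
  have h4 : fderiv ℝ (fun x => r • (fderiv ℝ (Gp p) (io p x)).comp (io p)) 0 v w =
      r • fderiv ℝ (fderiv ℝ (Gp p)) (io p 0) (io p v) (io p w) := by
    have h5 := congrArg (fun L => L v w) h3
    refine h5.trans ?_
    simp
  rw [h4, map_zero]
  have h6 := fderiv2_BS B B_symm (((-p : S2) : Eu 3)) (io p v) (io p w)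
  have h7 : fderiv ℝ (fderiv ℝ (Gp p)) 0 (io p v) (io p w) = _ := h6
  have h8 : B (((-p : S2) : Eu 3)) (((-p : S2) : Eu 3)) = B (p : Eu 3) (p : Eu 3) := by
    rw [coe_neg_sphere, map_neg (B (-(p : Eu 3))), map_neg B, ContinuousLinearMap.neg_apply, neg_neg]
  rw [h7, inner_io, h8, smul_smul, mul_comm]

/-- the local representation of the Veronese surface -/
noncomputable def fr (r : ℝ) (p : S2) : Eu 2 → Eu 5 := fun x => r • Gp p (io p x)

lemma inner_pp (p : S2) : ⟪(p : Eu 3), (p : Eu 3)⟫ = 1 := by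
  rw [real_inner_self_eq_norm_sq, norm_p]; norm_num

lemma inner_p_io (p : S2) (x : Eu 2) : ⟪(p : Eu 3), io p x⟫ = 0 := by
  rw [real_inner_comm]; exact inner_io_p p x

lemma inner_bv (i j : Fin 2) : ⟪(bv i : Eu 2), bv j⟫ = if i = j then 1 else 0 := by
  unfold bv
  rw [EuclideanSpace.inner_single_left]
  simp [Pi.single_apply]

lemma fderiv_fr0 (r : ℝ) (p : S2) (v : Eu 2) :
    fderiv ℝ (fr r p) 0 v = (2 * r) • B (p : Eu 3) (io p v) := fderiv_rep0 r p v

lemma gram_fr (r : ℝ) (p : S2) : gram (fr r p) 0 = (3 * r ^ 2) • (1 : Matrix (Fin 2) (Fin 2) ℝ) := by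
  ext i j
  simp only [gram, ip, dd, Matrix.of_apply, fderiv_fr0, inner_smul_left, inner_smul_right, inner_B,
    inner_pp, inner_p_io, inner_io_p, inner_io, inner_bv, Matrix.smul_apply, Matrix.one_apply,
    smul_eq_mul, conj_trivial]
  split_ifs <;> ring

lemma gram_inv (r : ℝ) (hr : 0 < r) (p : S2) :
    (gram (fr r p) 0)⁻¹ = (3 * r ^ 2)⁻¹ • (1 : Matrix (Fin 2) (Fin 2) ℝ) := by
  rw [gram_fr]
  apply Matrix.inv_eq_left_inv
  rw [smul_mul_smul_comm, inv_mul_cancel₀ (by positivity), one_smul, one_mul]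

/-- the second fundamental form at the centre -/
lemma sff_fr (r : ℝ) (p : S2) (i j : Fin 2) : sff (fr r p) 0 i j =
    (2 * r) • (B (io p (bv i)) (io p (bv j)) - ⟪(bv i : Eu 2), bv j⟫ • B (p : Eu 3) (p : Eu 3)) := by
  unfold sff nproj
  have hsm : ContDiff ℝ ∞ (fr r p) :=
    ((contDiff_Gp p).comp (io p).contDiff).const_smul r
  have hd : DifferentiableAt ℝ (fderiv ℝ (fr r p)) 0 :=
    ((hsm.fderiv_right (m := 1) (by norm_cast)).differentiable (by norm_num)) 0
  have e : dd (fun y => dd (fr r p) y (bv j)) 0 (bv i) =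
      (2 * r) • (B (io p (bv i)) (io p (bv j)) - ⟪(bv i : Eu 2), bv j⟫ • B (p : Eu 3) (p : Eu 3)) := by
    rw [dd_dd _ _ _ _ hd]
    exact fderiv2_rep0 r p (bv i) (bv j)
  rw [e]
  apply Submodule.starProjection_eq_self_iff.mpr
  rw [Submodule.mem_orthogonal]
  intro u hu
  obtain ⟨z, hz⟩ := hu
  have hz' : u = (2 * r) • B (p : Eu 3) (io p z) := by
    rw [← hz]
    exact fderiv_rep0 r p z
  rw [hz']
  simp only [inner_smul_left, inner_smul_right, inner_sub_right, inner_B, inner_pp, inner_p_io,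
    inner_io_p, conj_trivial]
  ring

/-- the trace of `B` vanishes -/
lemma trace_B (p : S2) : B (io p (bv 0)) (io p (bv 0)) + B (io p (bv 1)) (io p (bv 1)) =
    -B (p : Eu 3) (p : Eu 3) := by
  rw [eq_neg_iff_add_eq_zero, ← inner_self_eq_zero (𝕜 := ℝ)]
  simp only [inner_add_left, inner_add_right, inner_B, inner_pp, inner_p_io,
    inner_io_p, inner_io, inner_bv]
  norm_num

/-- the mean curvature vector of the Veronese surface of radius `r` -/
lemma Hvec_ver (r : ℝ) (hr : 0 < r) (p : S2) :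
    Hvec 2 (ver r) p = (-(2 / r)) • B (p : Eu 3) (p : Eu 3) := by
  unfold Hvec mcv
  rw [ctr_eq, lrep_ver]
  change ∑ i, ∑ j, (gram (fr r p) 0)⁻¹ i j • sff (fr r p) 0 i j = _
  simp only [gram_inv r hr, sff_fr, Fin.sum_univ_two, Matrix.smul_apply, Matrix.one_apply,
    inner_bv, smul_eq_mul]
  have ht := trace_B p
  have ht' : B (io p (bv 1)) (io p (bv 1)) = -B (p : Eu 3) (p : Eu 3) - B (io p (bv 0)) (io p (bv 0)) := by
    rw [← ht]; abel
  rw [ht']
  simp only [if_true, zero_ne_one, one_ne_zero, if_false, mul_zero, zero_smul, add_zero, zero_add,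
    mul_one, one_smul]
  rw [← smul_add]
  have e : (2 * r) • (B (io p (bv 0)) (io p (bv 0)) - B (p : Eu 3) (p : Eu 3)) +
      (2 * r) • (-B (p : Eu 3) (p : Eu 3) - B (io p (bv 0)) (io p (bv 0)) - B (p : Eu 3) (p : Eu 3)) =
      (-(6 * r)) • B (p : Eu 3) (p : Eu 3) := by
    module
  rw [e, smul_smul]
  congr 1
  field_simp
  norm_num

/-- the squared norm of the second fundamental form of the Veronese surface of radius `r` -/
lemma Asq_ver (r : ℝ) (hr : 0 < r) (p : S2) : Asq 2 (ver r) p = 10 / (3 * r ^ 2) := by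
  unfold Asq asq
  rw [ctr_eq, lrep_ver]
  unfold ip
  change ∑ i, ∑ j, ∑ k, ∑ l, (gram (fr r p) 0)⁻¹ i k * (gram (fr r p) 0)⁻¹ j l *
    ⟪sff (fr r p) 0 i j, sff (fr r p) 0 k l⟫ = _
  simp only [gram_inv r hr, sff_fr, Fin.sum_univ_two, Matrix.smul_apply, Matrix.one_apply,
    inner_bv, smul_eq_mul, inner_smul_left, inner_smul_right, inner_sub_left, inner_sub_right,
    inner_B, inner_pp, inner_p_io, inner_io_p, inner_io, conj_trivial]
  simp
  field_simp
  norm_num

end Pool.Agent.Helper93.MCF
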