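import Pool.Agent.Helper93.MCF.Ent

/-!
# Quadratic area growth of the Veronese surfaces
-/

set_option autoImplicit false

namespace Pool.Agent.Helper93.MCF

open Set Filter Topology Metric Module MeasureTheory
open scoped Manifold ContDiff RealInnerProductSpace ENNReal NNReal

/-- spherical caps -/
def cap (i : Fin 3) (e : ℝ) : Set (Eu 3) := {x | ‖x‖ = 1 ∧ 1 / √3 ≤ e * x i}

/-- dropping a coordinate -/
noncomputable def pr (i : Fin 3) (x : Eu 3) : Eu 2 := WithLp.toLp 2 (fun j => x (i.succAbove j))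

lemma norm_pr (i : Fin 3) (x : Eu 3) : ‖x‖ ^ 2 = ‖pr i x‖ ^ 2 + (x i) ^ 2 := by
  rw [EuclideanSpace.norm_sq_eq, EuclideanSpace.norm_sq_eq, Fin.sum_univ_succAbove _ i]
  simp only [Real.norm_eq_abs, sq_abs, pr]
  ring

lemma norm_pr_sub (i : Fin 3) (x y : Eu 3) :
    ‖x - y‖ ^ 2 = ‖pr i x - pr i y‖ ^ 2 + (x i - y i) ^ 2 := by
  have h := norm_pr i (x - y)
  have e : pr i (x - y) = pr i x - pr i y := by
    ext j; simp [pr]
  rw [e] at h
  simpa using h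

lemma cap_sq {i : Fin 3} {e : ℝ} (he : e ^ 2 = 1) {x y : Eu 3} (hx : x ∈ cap i e)
    (hy : y ∈ cap i e) : 4 / 3 ≤ (x i + y i) ^ 2 := by
  have h3 : (1 / √3) ^ 2 = 1 / 3 := by
    rw [div_pow, Real.sq_sqrt (by norm_num)]; norm_num
  have h3' : 0 < 1 / √3 := by positivity
  have h1 : 2 * (1 / √3) ≤ e * (x i + y i) := by
    have := hx.2; have := hy.2; linarith
  have h2 : (2 * (1 / √3)) ^ 2 ≤ (e * (x i + y i)) ^ 2 := pow_le_pow_left₀ (by positivity) h1 2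
  rw [mul_pow, h3, mul_pow, he] at h2
  linarith

lemma cap_pr_sq {i : Fin 3} {e : ℝ} (he : e ^ 2 = 1) {x : Eu 3} (hx : x ∈ cap i e) :
    ‖pr i x‖ ^ 2 ≤ 2 / 3 := by
  have h1 := norm_pr i x
  rw [hx.1] at h1
  have h2 := cap_sq he hx hx
  nlinarith

lemma cap_le1 {i : Fin 3} {e : ℝ} (he : e ^ 2 = 1) {x y : Eu 3} (hx : x ∈ cap i e)
    (hy : y ∈ cap i e) : ‖x - y‖ ^ 2 ≤ 3 * ‖pr i x - pr i y‖ ^ 2 := by
  rw [norm_pr_sub i x y]
  set D : ℝ := ‖pr i x - pr i y‖ with hD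
  set a : ℝ := ‖pr i x‖
  set b : ℝ := ‖pr i y‖
  have ha := cap_pr_sq he hx
  have hb := cap_pr_sq he hy
  have h1 := norm_pr i x
  have h2 := norm_pr i y
  rw [hx.1] at h1
  rw [hy.1] at h2
  have hab : |a - b| ≤ D := abs_norm_sub_norm_le _ _
  have hab2 : (a - b) ^ 2 ≤ D ^ 2 := by
    rw [← sq_abs (a - b)]
    exact pow_le_pow_left₀ (abs_nonneg _) hab 2
  have h3 : (x i - y i) ^ 2 * (x i + y i) ^ 2 = (a - b) ^ 2 * (a + b) ^ 2 := by
    have e1 : (x i - y i) * (x i + y i) = -((a - b) * (a + b)) := by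
      have : (x i) ^ 2 - (y i) ^ 2 = b ^ 2 - a ^ 2 := by linarith
      linear_combination this
    rw [← mul_pow, ← mul_pow, e1]
    ring
  have h4 : (a + b) ^ 2 ≤ 8 / 3 := by nlinarith [sq_nonneg (a - b)]
  have h5 := cap_sq he hx hy
  have h6 : (x i - y i) ^ 2 * (4 / 3) ≤ D ^ 2 * (8 / 3) := by
    calc (x i - y i) ^ 2 * (4 / 3) ≤ (x i - y i) ^ 2 * (x i + y i) ^ 2 := by gcongr
      _ = (a - b) ^ 2 * (a + b) ^ 2 := h3
      _ ≤ D ^ 2 * (8 / 3) := by gcongr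
  linarith

lemma cap_le2 {i : Fin 3} {e : ℝ} (he : e ^ 2 = 1) {x y : Eu 3} (hx : x ∈ cap i e)
    (hy : y ∈ cap i e) : ‖x - y‖ ^ 2 ≤ ‖B x x - B y y‖ ^ 2 := by
  rw [norm_sub_V x y hx.1 hy.1]
  have h1 : (x i + y i) ^ 2 ≤ ‖x + y‖ ^ 2 := by
    have h := norm_pr i (x + y)
    simp only [PiLp.add_apply] at h
    have := sq_nonneg ‖pr i (x + y)‖
    linarith
  have h2 := cap_sq he hx hy
  nlinarith [sq_nonneg ‖x - y‖, mul_le_mul_of_nonneg_left (h2.trans h1) (sq_nonneg ‖x - y‖)]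

lemma sph_le3 {x y : Eu 3} (hx : ‖x‖ = 1) (hy : ‖y‖ = 1) :
    ‖B x x - B y y‖ ^ 2 ≤ 3 * ‖x - y‖ ^ 2 := by
  rw [norm_sub_V x y hx hy]
  have h1 : ‖x + y‖ ≤ 2 := by
    have := norm_add_le x y
    rw [hx, hy] at this
    linarith
  have h2 : ‖x + y‖ ^ 2 ≤ 2 ^ 2 := pow_le_pow_left₀ (norm_nonneg _) h1 2
  nlinarith [sq_nonneg ‖x - y‖, mul_le_mul_of_nonneg_left h2 (sq_nonneg ‖x - y‖)]

/-- the measure of the image of a piece of a cap -/
lemma piece {i : Fin 3} {e : ℝ} (he : e ^ 2 = 1) (r : ℝ) (hr : 0 < r) (A : Set (Eu 3))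
    (hA : A ⊆ cap i e) (y₀ : Eu 5) (ρ : ℝ) (hρ : 0 ≤ ρ)
    (hAb : ∀ x ∈ A, r • B x x ∈ closedBall y₀ ρ) :
    (μH[(2 : ℝ)] : Measure (Eu 5)) ((fun x => r • B x x) '' A) ≤
      36 * (μH[(2 : ℝ)] : Measure (Eu 2)) (ball 0 1) * ENNReal.ofReal (ρ ^ 2) := by
  rcases A.eq_empty_or_nonempty with h0 | ⟨x₀, hx₀⟩
  · subst h0; simp
  set f : Eu 3 → Eu 5 := fun x => r • B x x with hf
  set g : Eu 2 → Eu 3 := Function.invFunOn (pr i) A with hg
  have hgm : ∀ u ∈ pr i '' A, g u ∈ A ∧ pr i (g u) = u := by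
    intro u hu
    obtain ⟨x, hx, hxu⟩ := hu
    exact ⟨Function.invFunOn_mem ⟨x, hx, hxu⟩, Function.invFunOn_eq ⟨x, hx, hxu⟩⟩
  have hlip : LipschitzOnWith (Real.toNNReal (3 * r)) (f ∘ g) (pr i '' A) := by
    apply LipschitzOnWith.of_dist_le_mul
    intro u hu v hv
    rw [Real.coe_toNNReal _ (by positivity), dist_eq_norm, dist_eq_norm]
    simp only [Function.comp_apply, hf, ← smul_sub, norm_smul, Real.norm_eq_abs, abs_of_pos hr]
    obtain ⟨hu1, hu2⟩ := hgm u hu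
    obtain ⟨hv1, hv2⟩ := hgm v hv
    have h1 := cap_le1 he (hA hu1) (hA hv1)
    rw [hu2, hv2] at h1
    have h2 := sph_le3 (hA hu1).1 (hA hv1).1
    have h3 : ‖B (g u) (g u) - B (g v) (g v)‖ ^ 2 ≤ (3 * ‖u - v‖) ^ 2 := by nlinarith
    have h4 := (pow_le_pow_iff_left₀ (norm_nonneg _) (by positivity) (by norm_num)).mp h3
    calc r * ‖B (g u) (g u) - B (g v) (g v)‖ ≤ r * (3 * ‖u - v‖) := by gcongr
      _ = 3 * r * ‖u - v‖ := by ring
  have himg : f '' A ⊆ (f ∘ g) '' (pr i '' A) := by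
    rintro _ ⟨x, hx, rfl⟩
    refine ⟨pr i x, ⟨x, hx, rfl⟩, ?_⟩
    obtain ⟨h1, h2⟩ := hgm (pr i x) ⟨x, hx, rfl⟩
    have h3 := cap_le1 he (hA h1) (hA hx)
    rw [h2, sub_self, norm_zero] at h3
    have h4 : ‖g (pr i x) - x‖ ^ 2 = 0 := le_antisymm (by simpa using h3) (sq_nonneg _)
    have h5 : g (pr i x) = x := by
      rw [← sub_eq_zero]
      exact norm_eq_zero.mp (pow_eq_zero_iff (by norm_num) |>.mp h4)
    simp only [Function.comp_apply, h5]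
  have hball : pr i '' A ⊆ closedBall (pr i x₀) (2 * ρ / r) := by
    rintro _ ⟨x, hx, rfl⟩
    rw [mem_closedBall, dist_eq_norm]
    have h1 := cap_le2 he (hA hx) (hA hx₀)
    have h2 : ‖pr i x - pr i x₀‖ ^ 2 ≤ ‖x - x₀‖ ^ 2 := by
      rw [norm_pr_sub i x x₀]
      have := sq_nonneg (x i - x₀ i)
      linarith
    have h3 := (pow_le_pow_iff_left₀ (norm_nonneg _) (norm_nonneg _) (by norm_num)).mp (h2.trans h1)
    have h4 : ‖r • B x x - r • B x₀ x₀‖ ≤ 2 * ρ := by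
      have h5 := hAb x hx
      have h6 := hAb x₀ hx₀
      rw [mem_closedBall] at h5 h6
      rw [← dist_eq_norm]
      calc dist (r • B x x) (r • B x₀ x₀) ≤ dist (r • B x x) y₀ + dist (r • B x₀ x₀) y₀ :=
            dist_triangle_right _ _ _
        _ ≤ 2 * ρ := by linarith
    rw [← smul_sub, norm_smul, Real.norm_eq_abs, abs_of_pos hr] at h4
    rw [le_div_iff₀ hr]
    calc ‖pr i x - pr i x₀‖ * r ≤ ‖B x x - B x₀ x₀‖ * r := by gcongr
      _ ≤ 2 * ρ := by linarith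
  have hfin : (finrank ℝ (Eu 2) : ℝ) = 2 := by simp
  have hmb : (μH[(2 : ℝ)] : Measure (Eu 2)) (closedBall (pr i x₀) (2 * ρ / r)) =
      ENNReal.ofReal ((2 * ρ / r) ^ 2) * (μH[(2 : ℝ)] : Measure (Eu 2)) (ball 0 1) := by
    have h := Measure.addHaar_closedBall (μH[(finrank ℝ (Eu 2) : ℝ)] : Measure (Eu 2)) (pr i x₀)
      (show 0 ≤ 2 * ρ / r by positivity)
    rw [hfin] at h
    simpa using h
  calc (μH[(2 : ℝ)] : Measure (Eu 5)) (f '' A)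
      ≤ (μH[(2 : ℝ)] : Measure (Eu 5)) ((f ∘ g) '' (pr i '' A)) := measure_mono himg
    _ ≤ ((Real.toNNReal (3 * r) : ℝ≥0) : ℝ≥0∞) ^ (2 : ℝ) *
        (μH[(2 : ℝ)] : Measure (Eu 2)) (pr i '' A) := hlip.hausdorffMeasure_image_le (by norm_num)
    _ ≤ ((Real.toNNReal (3 * r) : ℝ≥0) : ℝ≥0∞) ^ (2 : ℝ) *
        (ENNReal.ofReal ((2 * ρ / r) ^ 2) * (μH[(2 : ℝ)] : Measure (Eu 2)) (ball 0 1)) := by
        gcongr
        rw [← hmb]
        exact measure_mono hball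
    _ = 36 * (μH[(2 : ℝ)] : Measure (Eu 2)) (ball 0 1) * ENNReal.ofReal (ρ ^ 2) := by
        have e1 : ((Real.toNNReal (3 * r) : ℝ≥0) : ℝ≥0∞) ^ (2 : ℝ) = ENNReal.ofReal ((3 * r) ^ 2) := by
          rw [show ((Real.toNNReal (3 * r) : ℝ≥0) : ℝ≥0∞) = ENNReal.ofReal (3 * r) from rfl]
          rw [ENNReal.ofReal_rpow_of_nonneg (by positivity) (by norm_num)]
          norm_num
        rw [e1, ← mul_assoc, ← ENNReal.ofReal_mul (by positivity)]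
        have e2 : (3 * r) ^ 2 * (2 * ρ / r) ^ 2 = 36 * ρ ^ 2 := by
          field_simp
          ring
        rw [e2, ENNReal.ofReal_mul (by norm_num)]
        have e3 : ENNReal.ofReal 36 = 36 := by
          rw [show (36 : ℝ) = ((36 : ℕ) : ℝ) by norm_num, ENNReal.ofReal_natCast]; rfl
        rw [e3]
        ring

end Pool.Agent.Helper93.MCF
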