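import Mathlib

/-!
# Ancient mean curvature flows of arbitrary codimension: the class of the problem

Everything is computed in the charts of `M`: for `f : M → ℝ^N` the local representation at `p` is
`f ∘ (extChartAt p).symm`, a map defined near `extChartAt p p ∈ ℝ^n`.
-/

set_option autoImplicit false

namespace Pool.Agent.Helper93.MCF

open Set Filter Topology Metric MeasureTheory
open scoped Manifold ContDiff ENNReal NNReal RealInnerProductSpace

/-- Euclidean space `ℝ^k` -/
abbrev Eu (k : ℕ) : Type := EuclideanSpace ℝ (Fin k)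

section Local

variable {n N : ℕ}

/-- the standard basis vector of `ℝ^n` -/
noncomputable def bv (i : Fin n) : Eu n := EuclideanSpace.single i (1 : ℝ)

/-- inner product of `ℝ^N` -/
noncomputable def ip (u v : Eu N) : ℝ := ⟪u, v⟫

/-- directional derivative `∂_v f (x)` -/
noncomputable def dd (f : Eu n → Eu N) (x v : Eu n) : Eu N := fderiv ℝ f x v

/-- first fundamental form `g_ij = ⟨∂_i f, ∂_j f⟩` -/
noncomputable def gram (f : Eu n → Eu N) (x : Eu n) : Matrix (Fin n) (Fin n) ℝ :=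
  Matrix.of fun i j => ip (dd f x (bv i)) (dd f x (bv j))

/-- the tangent space, image of the differential -/
noncomputable def tang (f : Eu n → Eu N) (x : Eu n) : Submodule ℝ (Eu N) :=
  LinearMap.range (fderiv ℝ f x : Eu n →ₗ[ℝ] Eu N)

/-- orthogonal projection of `v` to the orthogonal complement of `T` -/
noncomputable def nproj (T : Submodule ℝ (Eu N)) (v : Eu N) : Eu N := Tᗮ.starProjection v

/-- vector valued second fundamental form `A_ij`: the normal part of `∂_i ∂_j f` -/
noncomputable def sff (f : Eu n → Eu N) (x : Eu n) (i j : Fin n) : Eu N :=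
  nproj (tang f x) (dd (fun y => dd f y (bv j)) x (bv i))

/-- mean curvature vector `H = g^ij A_ij` -/
noncomputable def mcv (f : Eu n → Eu N) (x : Eu n) : Eu N :=
  ∑ i, ∑ j, (gram f x)⁻¹ i j • sff f x i j

/-- `|A|^2 = g^ik g^jl ⟨A_ij, A_kl⟩` -/
noncomputable def asq (f : Eu n → Eu N) (x : Eu n) : ℝ :=
  ∑ i, ∑ j, ∑ k, ∑ l, (gram f x)⁻¹ i k * (gram f x)⁻¹ j l * ip (sff f x i j) (sff f x k l)

/-- for a twice differentiable map, `∂_v ∂_w f` is the second differential -/
lemma dd_dd (f : Eu n → Eu N) (x v w : Eu n) (h : DifferentiableAt ℝ (fderiv ℝ f) x) :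
    dd (fun y => dd f y w) x v = fderiv ℝ (fderiv ℝ f) x v w := by
  unfold dd
  have h1 := h.hasFDerivAt.clm_apply (hasFDerivAt_const w x)
  rw [h1.fderiv]
  simp

end Local

section Global

variable {n N : ℕ} {M : Type} [TopologicalSpace M] [ChartedSpace (Eu n) M]

/-- local representation of `f : M → ℝ^N` at `p` -/
noncomputable def lrep (f : M → Eu N) (p : M) : Eu n → Eu N :=
  f ∘ (extChartAt 𝓘(ℝ, Eu n) p).symm

/-- coordinates of `p` in the chart at `p` -/
noncomputable def ctr (n : ℕ) {M : Type} [TopologicalSpace M] [ChartedSpace (Eu n) M] (p : M) :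
    Eu n := extChartAt 𝓘(ℝ, Eu n) p p

/-- mean curvature vector of the immersion `f` at `p` -/
noncomputable def Hvec (n : ℕ) {N : ℕ} {M : Type} [TopologicalSpace M] [ChartedSpace (Eu n) M]
    (f : M → Eu N) (p : M) : Eu N := mcv (n := n) (lrep f p) (ctr n p)

/-- squared norm of the second fundamental form of the immersion `f` at `p` -/
noncomputable def Asq (n : ℕ) {N : ℕ} {M : Type} [TopologicalSpace M] [ChartedSpace (Eu n) M]
    (f : M → Eu N) (p : M) : ℝ := asq (n := n) (lrep f p) (ctr n p)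

/-- intrinsic distance induced by `f`: infimum of the lengths of `f ∘ γ` over the continuous
curves `γ` in `M` from `p` to `q` -/
noncomputable def idist {M : Type} [TopologicalSpace M] (f : M → Eu N) (p q : M) : ℝ≥0∞ :=
  ⨅ γ : {γ : ℝ → M // ContinuousOn γ (Icc 0 1) ∧ γ 0 = p ∧ γ 1 = q},
    eVariationOn (f ∘ γ.1) (Icc 0 1)

/-- completeness of the induced metric: every Cauchy sequence converges -/
def IComplete {M : Type} [TopologicalSpace M] (f : M → Eu N) : Prop :=
  ∀ s : ℕ → M, (∀ ε : ℝ≥0∞, 0 < ε → ∃ K, ∀ i ≥ K, ∀ j ≥ K, idist f (s i) (s j) < ε) →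
    ∃ p, Tendsto s atTop (𝓝 p)

/-- the entropy of the immersed submanifold `f`: supremum over `x₀ ∈ ℝ^N`, `s > 0` of
`(4πs)^(-n/2) ∫_M exp(-|f - x₀|²/(4s)) dμ`.  The integral over `M` with respect to the induced
measure is written, by the area formula, as the integral over `ℝ^N` of the number of preimages
with respect to the `n`-dimensional Hausdorff measure. -/
noncomputable def entropy (n : ℕ) {N : ℕ} {M : Type} (f : M → Eu N) : ℝ≥0∞ :=
  ⨆ x₀ : Eu N, ⨆ s : {s : ℝ // 0 < s},
    ENNReal.ofReal ((4 * Real.pi * s.1) ^ (-(n : ℝ) / 2)) *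
      ∫⁻ y, ((f ⁻¹' {y}).encard : ℝ≥0∞) * ENNReal.ofReal (Real.exp (-‖y - x₀‖ ^ 2 / (4 * s.1)))
        ∂(μH[(n : ℝ)] : Measure (Eu N))

/-- curvature of polynomial growth -/
def PolyGrowth (n : ℕ) {N : ℕ} {M : Type} [TopologicalSpace M] [ChartedSpace (Eu n) M]
    (f : M → Eu N) : Prop :=
  ∃ C : ℝ, ∃ m : ℕ, ∀ p, Asq n f p ≤ C * (1 + ‖f p‖) ^ m

/-- `F` is smooth on `M × (-∞, 0)` -/
def SmoothFlow (n : ℕ) {N : ℕ} {M : Type} [TopologicalSpace M] [ChartedSpace (Eu n) M]
    (F : M → ℝ → Eu N) : Prop :=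
  ContMDiffOn (𝓘(ℝ, Eu n).prod 𝓘(ℝ, ℝ)) 𝓘(ℝ, Eu N) ∞
    (fun x : M × ℝ => F x.1 x.2) (univ ×ˢ Iio 0)

/-- `f` is an immersion -/
def Immersed (n : ℕ) {N : ℕ} {M : Type} [TopologicalSpace M] [ChartedSpace (Eu n) M]
    (f : M → Eu N) : Prop :=
  ∀ p, Function.Injective (dd (lrep (n := n) f p) (ctr n p))

/-- the curve `γ` in `ℝ^N` has velocity `v` at time `t` -/
def Velocity {N : ℕ} (γ : ℝ → Eu N) (t : ℝ) (v : Eu N) : Prop := HasDerivAt γ v t

/-- ancient solutions of mean curvature flow in the class of the problem: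
a smooth family of immersions `F(·, t)`, `t < 0`, of the `n`-manifold `M` with `∂_t F = H`,
each time slice complete, finite entropy, curvature of polynomial growth on each time slice -/
structure IsAncient (n : ℕ) {N : ℕ} {M : Type} [TopologicalSpace M] [ChartedSpace (Eu n) M]
    (F : M → ℝ → Eu N) : Prop where
  smooth : SmoothFlow n F
  immersion : ∀ t < 0, Immersed n (F · t)
  flow : ∀ t < 0, ∀ p, Velocity (F p) t (Hvec n (F · t) p)
  complete : ∀ t < 0, IComplete (F · t)
  entropy_lt : ∃ E : ℝ≥0, ∀ t < 0, entropy n (F · t) ≤ E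
  growth : ∀ t < 0, PolyGrowth n (F · t)

/-- the flow is uniformly `c`-pinched -/
def Pinched (n : ℕ) {N : ℕ} {M : Type} [TopologicalSpace M] [ChartedSpace (Eu n) M]
    (F : M → ℝ → Eu N) (c : ℝ) : Prop :=
  ∃ ε₀ : ℝ, 0 < ε₀ ∧ ∀ t < 0, ∀ p, Asq n (F · t) p ≤ (c - ε₀) * ‖Hvec n (F · t) p‖ ^ 2

/-- affine subspaces of `ℝ^N` -/
abbrev Aff (N : ℕ) : Type := AffineSubspace ℝ (Eu N)

/-- the dimension of an affine subspace -/
noncomputable def adim {N : ℕ} (S : Aff N) : ℕ := Module.finrank ℝ S.direction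

/-- the time slice `f` lies in the affine subspace `S` -/
def LiesIn {N : ℕ} {M : Type} (f : M → Eu N) (S : Aff N) : Prop := ∀ p, f p ∈ S

/-- the flow is codimension one: all time slices lie in one affine subspace of dimension `n + 1` -/
def CodimOne (n : ℕ) {N : ℕ} {M : Type} (F : M → ℝ → Eu N) : Prop :=
  ∃ S : Aff N, adim S = n + 1 ∧ ∀ t < 0, LiesIn (F · t) S

/-- `c` forces codimension one -/
def Forces (n : ℕ) (c : ℝ) : Prop :=
  ∀ (N : ℕ), n + 1 ≤ N → ∀ (M : Type) [TopologicalSpace M] [T2Space M]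
    [SecondCountableTopology M] [ConnectedSpace M] [ChartedSpace (Eu n) M]
    [IsManifold 𝓘(ℝ, Eu n) ∞ M] (F : M → ℝ → Eu N),
    IsAncient n F → Pinched n F c → CodimOne n F

/-- the sharp pinching constant `c*(n)` -/
noncomputable def cstar (n : ℕ) : ℝ := sSup {c : ℝ | 0 < c ∧ Forces n c}

/-- `|A|² = c |H|²` and `H ≠ 0` at all points of the flow -/
def ExactRatio (n : ℕ) {N : ℕ} {M : Type} [TopologicalSpace M] [ChartedSpace (Eu n) M]
    (F : M → ℝ → Eu N) (c : ℝ) : Prop :=
  ∀ t < 0, ∀ p, Asq n (F · t) p = c * ‖Hvec n (F · t) p‖ ^ 2 ∧ Hvec n (F · t) p ≠ 0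

/-- no time slice lies in a proper affine subspace -/
def FullSlices {N : ℕ} {M : Type} (F : M → ℝ → Eu N) : Prop :=
  ∀ t < 0, ∀ S : Aff N, LiesIn (F · t) S → adim S = N

end Global

end Pool.Agent.Helper93.MCF
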