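import Pool.Agent.Helper93.MCF.Flow

/-!
# Finite entropy of the Veronese surfaces
-/

set_option autoImplicit false

namespace Pool.Agent.Helper93.MCF

open Set Filter Topology Metric Module MeasureTheory
open scoped Manifold ContDiff RealInnerProductSpace ENNReal NNReal

/-- Gaussian integrals of a set with quadratic area growth -/
lemma gauss_bound (μ : Measure (Eu 5)) (K : Set (Eu 5)) (C : ℝ≥0∞)
    (y₀ : Eu 5) (h : ∀ ρ : ℝ, 0 ≤ ρ → μ (K ∩ closedBall y₀ ρ) ≤ C * ENNReal.ofReal (ρ ^ 2))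
    (s : ℝ) (hs : 0 < s) :
    ∫⁻ y in K, ENNReal.ofReal (Real.exp (-‖y - y₀‖ ^ 2 / (4 * s))) ∂μ ≤
      C * ENNReal.ofReal s *
        ∑' k : ℕ, ENNReal.ofReal (Real.exp (-(1 / 4) * k) * ((k : ℝ) + 1) ^ 2) := by
  have hsq : 0 < √s := Real.sqrt_pos.mpr hs
  have hss : √s ^ 2 = s := Real.sq_sqrt hs.le
  have hpt : ∀ y : Eu 5, ENNReal.ofReal (Real.exp (-‖y - y₀‖ ^ 2 / (4 * s))) ≤
      ∑' k : ℕ, (closedBall y₀ (((k : ℝ) + 1) * √s)).indicator
        (fun _ => ENNReal.ofReal (Real.exp (-(1 / 4) * k))) y := by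
    intro y
    set k : ℕ := ⌊‖y - y₀‖ / √s⌋₊ with hk
    have h0 : 0 ≤ ‖y - y₀‖ / √s := by positivity
    have h1 : (k : ℝ) ≤ ‖y - y₀‖ / √s := Nat.floor_le h0
    have h2 : ‖y - y₀‖ / √s < k + 1 := Nat.lt_floor_add_one _
    have hmem : y ∈ closedBall y₀ (((k : ℝ) + 1) * √s) := by
      rw [mem_closedBall, dist_eq_norm]
      rw [div_lt_iff₀ hsq] at h2
      exact h2.le
    calc ENNReal.ofReal (Real.exp (-‖y - y₀‖ ^ 2 / (4 * s)))
        ≤ ENNReal.ofReal (Real.exp (-(1 / 4) * k)) := by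
          apply ENNReal.ofReal_le_ofReal
          apply Real.exp_le_exp.mpr
          rw [le_div_iff₀ hsq] at h1
          have h3 : ((k : ℝ) * √s) ^ 2 ≤ ‖y - y₀‖ ^ 2 := by
            apply pow_le_pow_left₀ (by positivity) h1
          rw [mul_pow, hss] at h3
          have h4 : (k : ℝ) ≤ (k : ℝ) ^ 2 := by
            rcases Nat.eq_zero_or_pos k with h | h
            · rw [h]; norm_num
            · have : (1 : ℝ) ≤ k := by exact_mod_cast h
              nlinarith
          rw [div_le_iff₀ (by positivity)]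
          nlinarith
      _ = (closedBall y₀ (((k : ℝ) + 1) * √s)).indicator
        (fun _ => ENNReal.ofReal (Real.exp (-(1 / 4) * k))) y := by rw [indicator_of_mem hmem]
      _ ≤ _ := ENNReal.le_tsum k
  calc ∫⁻ y in K, ENNReal.ofReal (Real.exp (-‖y - y₀‖ ^ 2 / (4 * s))) ∂μ
      ≤ ∫⁻ y in K, ∑' k : ℕ, (closedBall y₀ (((k : ℝ) + 1) * √s)).indicator
        (fun _ => ENNReal.ofReal (Real.exp (-(1 / 4) * k))) y ∂μ := lintegral_mono hpt
    _ = ∑' k : ℕ, ∫⁻ y in K, (closedBall y₀ (((k : ℝ) + 1) * √s)).indicator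
        (fun _ => ENNReal.ofReal (Real.exp (-(1 / 4) * k))) y ∂μ := by
        apply lintegral_tsum
        intro k
        exact (measurable_const.indicator measurableSet_closedBall).aemeasurable
    _ ≤ ∑' k : ℕ, C * ENNReal.ofReal s *
        ENNReal.ofReal (Real.exp (-(1 / 4) * k) * ((k : ℝ) + 1) ^ 2) := by
        apply ENNReal.tsum_le_tsum
        intro k
        rw [lintegral_indicator measurableSet_closedBall, lintegral_const,
          Measure.restrict_restrict measurableSet_closedBall, Measure.restrict_apply_univ, inter_comm]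
        calc ENNReal.ofReal (Real.exp (-(1 / 4) * k)) * μ (K ∩ closedBall y₀ (((k : ℝ) + 1) * √s))
            ≤ ENNReal.ofReal (Real.exp (-(1 / 4) * k)) *
              (C * ENNReal.ofReal ((((k : ℝ) + 1) * √s) ^ 2)) := by
              gcongr
              exact h _ (by positivity)
          _ = C * ENNReal.ofReal s * ENNReal.ofReal (Real.exp (-(1 / 4) * k) * ((k : ℝ) + 1) ^ 2) := by
              rw [mul_pow, hss, ENNReal.ofReal_mul (by positivity), ENNReal.ofReal_mul (by positivity)]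
              ring
    _ = _ := ENNReal.tsum_mul_left

lemma gauss_sum_lt : (∑' k : ℕ, ENNReal.ofReal (Real.exp (-(1 / 4) * k) * ((k : ℝ) + 1) ^ 2)) < ⊤ := by
  have hs : Summable (fun k : ℕ => Real.exp (-(1 / 4) * k) * ((k : ℝ) + 1) ^ 2) := by
    have h2 := Real.summable_pow_mul_exp_neg_nat_mul 2 (show (0 : ℝ) < 1 / 4 by norm_num)
    have h1 := Real.summable_pow_mul_exp_neg_nat_mul 1 (show (0 : ℝ) < 1 / 4 by norm_num)
    have h0 := Real.summable_pow_mul_exp_neg_nat_mul 0 (show (0 : ℝ) < 1 / 4 by norm_num)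
    have h3 := (h2.add (h1.mul_left 2)).add h0
    refine h3.congr fun k => ?_
    ring
  exact lt_of_le_of_ne le_top hs.tsum_ofReal_ne_top

end Pool.Agent.Helper93.MCF
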