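import Pool.Agent.Helper93.MCF.Area

/-!
# Finite entropy, and the shrinking Veronese surface belongs to the class
-/

set_option autoImplicit false

namespace Pool.Agent.Helper93.MCF

open Set Filter Topology Metric Module MeasureTheory
open scoped Manifold ContDiff RealInnerProductSpace ENNReal NNReal

/-- area growth of the Veronese surface of radius `r` -/
lemma area_growth (r : ℝ) (hr : 0 < r) (y₀ : Eu 5) (ρ : ℝ) (hρ : 0 ≤ ρ) :
    (μH[(2 : ℝ)] : Measure (Eu 5)) (range (ver r) ∩ closedBall y₀ ρ) ≤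
      (216 * (μH[(2 : ℝ)] : Measure (Eu 2)) (ball 0 1)) * ENNReal.ofReal (ρ ^ 2) := by
  set A : Fin 3 → ℝ → Set (Eu 3) := fun i e => {x | x ∈ cap i e ∧ r • B x x ∈ closedBall y₀ ρ} with hA
  have hcov : range (ver r) ∩ closedBall y₀ ρ ⊆
      ⋃ i : Fin 3, (((fun x => r • B x x) '' A i 1) ∪ ((fun x => r • B x x) '' A i (-1))) := by
    rintro y ⟨⟨p, rfl⟩, hy⟩
    have hn : (p : Eu 3) 0 ^ 2 + (p : Eu 3) 1 ^ 2 + (p : Eu 3) 2 ^ 2 = 1 := by
      have h := EuclideanSpace.norm_sq_eq (p : Eu 3)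
      rw [norm_p, Fin.sum_univ_three] at h
      simp only [Real.norm_eq_abs, sq_abs] at h
      linarith
    have hex : ∃ i : Fin 3, 1 / 3 ≤ (p : Eu 3) i ^ 2 := by
      by_contra hcon
      push Not at hcon
      have h0 := hcon 0
      have h1 := hcon 1
      have h2 := hcon 2
      linarith
    obtain ⟨i, hi⟩ := hex
    have h3 : (1 / √3) ^ 2 = 1 / 3 := by
      rw [div_pow, Real.sq_sqrt (by norm_num)]; norm_num
    have habs : 1 / √3 ≤ |(p : Eu 3) i| := by
      apply le_of_sq_le_sq _ (abs_nonneg _)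
      rw [h3, sq_abs]
      exact hi
    rw [mem_iUnion]
    refine ⟨i, ?_⟩
    rcases le_total 0 ((p : Eu 3) i) with h | h
    · left
      rw [abs_of_nonneg h] at habs
      exact ⟨p, ⟨⟨norm_p p, by linarith⟩, hy⟩, rfl⟩
    · right
      rw [abs_of_nonpos h] at habs
      exact ⟨p, ⟨⟨norm_p p, by linarith⟩, hy⟩, rfl⟩
  have hp : ∀ i : Fin 3, ∀ e : ℝ, e ^ 2 = 1 →
      (μH[(2 : ℝ)] : Measure (Eu 5)) ((fun x => r • B x x) '' A i e) ≤
      36 * (μH[(2 : ℝ)] : Measure (Eu 2)) (ball 0 1) * ENNReal.ofReal (ρ ^ 2) :=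
    fun i e he => piece he r hr (A i e) (fun x hx => hx.1) y₀ ρ hρ (fun x hx => hx.2)
  calc (μH[(2 : ℝ)] : Measure (Eu 5)) (range (ver r) ∩ closedBall y₀ ρ)
      ≤ (μH[(2 : ℝ)] : Measure (Eu 5))
        (⋃ i : Fin 3, (((fun x => r • B x x) '' A i 1) ∪ ((fun x => r • B x x) '' A i (-1)))) :=
        measure_mono hcov
    _ ≤ ∑ i : Fin 3, (μH[(2 : ℝ)] : Measure (Eu 5))
        (((fun x => r • B x x) '' A i 1) ∪ ((fun x => r • B x x) '' A i (-1))) :=
        measure_iUnion_fintype_le _ _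
    _ ≤ ∑ i : Fin 3, (36 * (μH[(2 : ℝ)] : Measure (Eu 2)) (ball 0 1) * ENNReal.ofReal (ρ ^ 2) +
        36 * (μH[(2 : ℝ)] : Measure (Eu 2)) (ball 0 1) * ENNReal.ofReal (ρ ^ 2)) := by
        apply Finset.sum_le_sum
        intro i _
        refine le_trans (measure_union_le _ _) (add_le_add (hp i 1 (by norm_num)) (hp i (-1) (by norm_num)))
    _ = _ := by
        simp only [Finset.sum_const, Finset.card_univ, Fintype.card_fin, nsmul_eq_mul]
        push_cast
        ring

lemma encard_le (r : ℝ) (hr : 0 < r) (y : Eu 5) :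
    ((ver r ⁻¹' {y}).encard : ℝ≥0∞) ≤ (range (ver r)).indicator (fun _ => 2) y := by
  by_cases hy : y ∈ range (ver r)
  · rw [indicator_of_mem hy]
    obtain ⟨p, rfl⟩ := hy
    have hsub : ver r ⁻¹' {ver r p} ⊆ {p, -p} := by
      intro q hq
      have h1 : r • B (q : Eu 3) (q : Eu 3) = r • B (p : Eu 3) (p : Eu 3) := hq
      have h2 : B (q : Eu 3) (q : Eu 3) - B (p : Eu 3) (p : Eu 3) = 0 := by
        rw [sub_eq_zero]
        exact smul_right_injective _ hr.ne' h1
      have h3 := norm_sub_V (q : Eu 3) (p : Eu 3) (norm_p q) (norm_p p)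
      rw [h2, norm_zero] at h3
      have h4 : ‖(q : Eu 3) - p‖ ^ 2 * ‖(q : Eu 3) + p‖ ^ 2 = 0 := by linarith
      rcases mul_eq_zero.mp h4 with h | h
      · left
        apply Subtype.ext
        rw [← sub_eq_zero]
        exact norm_eq_zero.mp (pow_eq_zero_iff (by norm_num) |>.mp h)
      · right
        apply Subtype.ext
        rw [coe_neg_sphere]
        rw [eq_neg_iff_add_eq_zero]
        exact norm_eq_zero.mp (pow_eq_zero_iff (by norm_num) |>.mp h)
    have h5 : (ver r ⁻¹' {ver r p}).encard ≤ 2 :=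
      le_trans (encard_le_encard hsub) ((encard_insert_le _ _).trans (by
        rw [encard_singleton]; norm_num))
    calc ((ver r ⁻¹' {ver r p}).encard : ℝ≥0∞) ≤ ((2 : ℕ∞) : ℝ≥0∞) := by exact_mod_cast h5
      _ = 2 := by simp
  · have : ver r ⁻¹' {y} = ∅ := by
      ext q
      simp only [mem_preimage, mem_singleton_iff, mem_empty_iff_false, iff_false]
      intro h
      exact hy ⟨q, h⟩
    rw [this]
    simp

/-- the bound for the entropy -/
noncomputable def entB : ℝ≥0∞ :=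
  2 * (216 * (μH[(2 : ℝ)] : Measure (Eu 2)) (ball 0 1)) *
    (∑' k : ℕ, ENNReal.ofReal (Real.exp (-(1 / 4) * k) * ((k : ℝ) + 1) ^ 2)) *
    ENNReal.ofReal (1 / (4 * Real.pi))

lemma entB_lt : entB < ⊤ := by
  have h1 : (μH[(2 : ℝ)] : Measure (Eu 2)) (ball 0 1) < ⊤ := by
    have hfin : (finrank ℝ (Eu 2) : ℝ) = 2 := by simp
    have h : (μH[(finrank ℝ (Eu 2) : ℝ)] : Measure (Eu 2)) (ball 0 1) < ⊤ := measure_ball_lt_top
    rw [hfin] at h
    exact h
  unfold entB
  apply ENNReal.mul_lt_top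
  · apply ENNReal.mul_lt_top
    · apply ENNReal.mul_lt_top (by simp)
      exact ENNReal.mul_lt_top (by simp) h1
    · exact gauss_sum_lt
  · exact ENNReal.ofReal_lt_top

lemma continuous_ver (r : ℝ) : Continuous (ver r) := by
  have h7 : Continuous (fun w : Eu 3 => B w w) := B.continuous.clm_apply continuous_id
  exact (h7.comp continuous_subtype_val).const_smul r

lemma entropy_ver (r : ℝ) (hr : 0 < r) : entropy 2 (ver r) ≤ entB := by
  unfold entropy
  apply iSup_le
  intro y₀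
  apply iSup_le
  rintro ⟨s, hs⟩
  have hK : MeasurableSet (range (ver r)) := (isCompact_range (continuous_ver r)).measurableSet
  have h1 : ∫⁻ y, ((ver r ⁻¹' {y}).encard : ℝ≥0∞) *
      ENNReal.ofReal (Real.exp (-‖y - y₀‖ ^ 2 / (4 * s))) ∂(μH[((2 : ℕ) : ℝ)] : Measure (Eu 5)) ≤
      2 * ∫⁻ y in range (ver r), ENNReal.ofReal (Real.exp (-‖y - y₀‖ ^ 2 / (4 * s)))
        ∂(μH[(2 : ℝ)] : Measure (Eu 5)) := by
    rw [← lintegral_const_mul' _ _ (by simp), ← lintegral_indicator hK]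
    simp only [Nat.cast_ofNat]
    apply lintegral_mono
    intro y
    refine le_trans (mul_le_mul_left (encard_le r hr y) _) ?_
    by_cases hy : y ∈ range (ver r)
    · rw [indicator_of_mem hy, indicator_of_mem hy]
    · rw [indicator_of_notMem hy, indicator_of_notMem hy, zero_mul]
  have h2 := gauss_bound (μH[(2 : ℝ)] : Measure (Eu 5)) (range (ver r))
    (216 * (μH[(2 : ℝ)] : Measure (Eu 2)) (ball 0 1)) y₀ (fun ρ hρ => area_growth r hr y₀ ρ hρ) s hs
  have h3 : (4 * Real.pi * s) ^ (-((2 : ℕ) : ℝ) / 2) = 1 / (4 * Real.pi) * s⁻¹ := by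
    have : (-((2 : ℕ) : ℝ) / 2) = -1 := by norm_num
    rw [this, Real.rpow_neg_one, mul_inv, one_div]
  simp only
  rw [h3]
  calc ENNReal.ofReal (1 / (4 * Real.pi) * s⁻¹) * _
      ≤ ENNReal.ofReal (1 / (4 * Real.pi) * s⁻¹) *
        (2 * ((216 * (μH[(2 : ℝ)] : Measure (Eu 2)) (ball 0 1)) * ENNReal.ofReal s *
          ∑' k : ℕ, ENNReal.ofReal (Real.exp (-(1 / 4) * k) * ((k : ℝ) + 1) ^ 2))) := by
        gcongr
        exact le_trans h1 (by gcongr)
    _ = entB := by
        unfold entB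
        rw [ENNReal.ofReal_mul (by positivity)]
        have e : ENNReal.ofReal s⁻¹ * ENNReal.ofReal s = 1 := by
          rw [← ENNReal.ofReal_mul (by positivity), inv_mul_cancel₀ hs.ne', ENNReal.ofReal_one]
        calc _ = 2 * (216 * (μH[(2 : ℝ)] : Measure (Eu 2)) (ball 0 1)) *
          (∑' k : ℕ, ENNReal.ofReal (Real.exp (-(1 / 4) * k) * ((k : ℝ) + 1) ^ 2)) *
          ENNReal.ofReal (1 / (4 * Real.pi)) * (ENNReal.ofReal s⁻¹ * ENNReal.ofReal s) := by ring
          _ = _ := by rw [e, mul_one]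

/-- the shrinking Veronese surface belongs to the class -/
theorem isAncient_VF : IsAncient 2 VF where
  smooth := smooth_VF
  immersion := fun _ ht => immersion_ver _ (rad_pos ht)
  flow := fun _ ht p => flow_VF ht p
  complete := fun _ ht => complete_ver _ (rad_pos ht)
  entropy_lt := by
    refine ⟨entB.toNNReal, fun t ht => ?_⟩
    rw [ENNReal.coe_toNNReal entB_lt.ne]
    exact entropy_ver _ (rad_pos ht)
  growth := fun _ ht => growth_ver _ (rad_pos ht)

/-- points of the sphere -/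
noncomputable def mkS (a b c : ℝ) (h : a ^ 2 + b ^ 2 + c ^ 2 = 1) : S2 :=
  ⟨WithLp.toLp 2 ![a, b, c], by
    rw [mem_sphere_zero_iff_norm]
    have h1 : ‖(WithLp.toLp 2 ![a, b, c] : Eu 3)‖ ^ 2 = 1 := by
      rw [EuclideanSpace.norm_sq_eq, Fin.sum_univ_three]
      simp
      exact h
    have h0 := norm_nonneg (WithLp.toLp 2 ![a, b, c] : Eu 3)
    nlinarith⟩

lemma inner_V_mkS (n : Eu 5) (a b c : ℝ) (h : a ^ 2 + b ^ 2 + c ^ 2 = 1) :
    ⟪n, B (mkS a b c h : Eu 3) (mkS a b c h : Eu 3)⟫ =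
      √3 * (n 0 * (a * b) + n 1 * (a * c) + n 2 * (b * c)) + √3 / 2 * (n 3 * (a ^ 2 - b ^ 2)) +
        1 / 2 * (n 4 * (a ^ 2 + b ^ 2 - 2 * c ^ 2)) := by
  rw [B_apply]
  simp only [PiLp.inner_apply, Fin.sum_univ_five, RCLike.inner_apply, conj_trivial, mkS]
  simp
  ring

/-- the affine hull of each time slice is `ℝ⁵` -/
theorem full_VF (t : ℝ) (ht : t < 0) (S : AffineSubspace ℝ (Eu 5)) (h : ∀ p, VF p t ∈ S) :
    S.direction = ⊤ := by
  have hr := rad_pos ht
  have h3 : 0 < √3 := by positivity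
  rw [← Submodule.orthogonal_eq_bot_iff, Submodule.eq_bot_iff]
  intro n hn
  rw [Submodule.mem_orthogonal'] at hn
  have hc : ∀ p q : S2, ⟪n, B (p : Eu 3) (p : Eu 3)⟫ = ⟪n, B (q : Eu 3) (q : Eu 3)⟫ := by
    intro p q
    have h1 := hn _ (AffineSubspace.vsub_mem_direction (h p) (h q))
    simp only [VF, ver, vsub_eq_sub, ← smul_sub, inner_smul_right, inner_sub_right] at h1
    rcases mul_eq_zero.mp h1 with h2 | h2
    · exact absurd h2 hr.ne'
    · linarith
  have c1 := hc (mkS 1 0 0 (by norm_num)) (mkS 0 1 0 (by norm_num))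
  have c2 := hc (mkS 1 0 0 (by norm_num)) (mkS 0 0 1 (by norm_num))
  have c3 := hc (mkS (3 / 5) (4 / 5) 0 (by norm_num)) (mkS 0 0 1 (by norm_num))
  have c4 := hc (mkS (3 / 5) 0 (4 / 5) (by norm_num)) (mkS 0 0 1 (by norm_num))
  have c5 := hc (mkS 0 (3 / 5) (4 / 5) (by norm_num)) (mkS 0 0 1 (by norm_num))
  rw [inner_V_mkS, inner_V_mkS] at c1 c2 c3 c4 c5
  have n3 : n 3 = 0 := by
    have : √3 * n 3 = 0 := by linarith
    rcases mul_eq_zero.mp this with h | h
    · exact absurd h h3.ne'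
    · exact h
  rw [n3] at c2 c3 c4 c5
  have n4 : n 4 = 0 := by linarith
  rw [n4] at c3 c4 c5
  have n0 : n 0 = 0 := by
    have : √3 * n 0 = 0 := by linarith
    rcases mul_eq_zero.mp this with h | h
    · exact absurd h h3.ne'
    · exact h
  have n1 : n 1 = 0 := by
    have : √3 * n 1 = 0 := by linarith
    rcases mul_eq_zero.mp this with h | h
    · exact absurd h h3.ne'
    · exact h
  have n2 : n 2 = 0 := by
    have : √3 * n 2 = 0 := by linarith
    rcases mul_eq_zero.mp this with h | h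
    · exact absurd h h3.ne'
    · exact h
  ext i
  fin_cases i
  · exact n0
  · exact n1
  · exact n2
  · exact n3
  · exact n4

end Pool.Agent.Helper93.MCF
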