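import Pool.Agent.Helper93.MCF.Geo

/-!
# The shrinking Veronese surface
-/

set_option autoImplicit false

namespace Pool.Agent.Helper93.MCF

open Set Filter Topology Metric Module
open scoped Manifold ContDiff RealInnerProductSpace ENNReal NNReal

/-- the shrinking Veronese surface `√(-4t) V(p)` -/
noncomputable def VF (p : S2) (t : ℝ) : Eu 5 := ver (√(-(4 * t))) p

lemma norm_V (p : S2) : ‖B (p : Eu 3) (p : Eu 3)‖ = 1 := by
  have h : ‖B (p : Eu 3) (p : Eu 3)‖ ^ 2 = 1 := by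
    rw [← real_inner_self_eq_norm_sq, inner_B, inner_pp]; norm_num
  have h0 := norm_nonneg (B (p : Eu 3) (p : Eu 3))
  nlinarith

lemma rad_pos {t : ℝ} (ht : t < 0) : 0 < √(-(4 * t)) := Real.sqrt_pos.mpr (by linarith)

lemma flow_VF {t : ℝ} (ht : t < 0) (p : S2) :
    Velocity (VF p) t (Hvec 2 (VF · t) p) := by
  unfold Velocity
  have hr := rad_pos ht
  have e : Hvec 2 (VF · t) p = (-(2 / √(-(4 * t)))) • B (p : Eu 3) (p : Eu 3) :=
    Hvec_ver _ hr p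
  rw [e]
  have h1 : HasDerivAt (fun τ : ℝ => -(4 * τ)) (-4) t := by
    have h := ((hasDerivAt_id t).const_mul 4).neg
    exact h.congr_deriv (by simp)
  have h2 : HasDerivAt (fun τ : ℝ => √(-(4 * τ))) (-(2 / √(-(4 * t)))) t := by
    refine (h1.sqrt (by linarith)).congr_deriv ?_
    field_simp
    norm_num
  exact h2.smul_const _

lemma smooth_VF : ContMDiffOn (𝓘(ℝ, Eu 2).prod 𝓘(ℝ, ℝ)) 𝓘(ℝ, Eu 5) ∞
    (fun x : S2 × ℝ => VF x.1 x.2) (univ ×ˢ Iio 0) := by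
  have h1 : ContMDiffOn (𝓘(ℝ, Eu 2).prod 𝓘(ℝ, ℝ)) 𝓘(ℝ, ℝ) ∞
      (fun x : S2 × ℝ => √(-(4 * x.2))) (univ ×ˢ Iio 0) := by
    have h2 : ContDiffOn ℝ ∞ (fun t : ℝ => √(-(4 * t))) (Iio 0) := by
      intro t ht
      have ht' : -(4 * t) ≠ 0 := by
        have : t < 0 := ht
        linarith
      have h3 : ContDiffAt ℝ ∞ (fun t : ℝ => -(4 * t)) t := by fun_prop
      exact (h3.sqrt ht').contDiffWithinAt
    have h4 : ContMDiffOn (𝓘(ℝ, Eu 2).prod 𝓘(ℝ, ℝ)) 𝓘(ℝ, ℝ) ∞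
      (fun x : S2 × ℝ => x.2) (univ ×ˢ Iio 0) := contMDiff_snd.contMDiffOn
    exact h2.contMDiffOn.comp h4 (fun x hx => hx.2)
  have h5 : ContMDiff (𝓘(ℝ, Eu 2).prod 𝓘(ℝ, ℝ)) 𝓘(ℝ, Eu 5) ∞
      (fun x : S2 × ℝ => B (x.1 : Eu 3) (x.1 : Eu 3)) := by
    have h6 : ContMDiff 𝓘(ℝ, Eu 2) 𝓘(ℝ, Eu 3) ∞ (fun p : S2 => (p : Eu 3)) :=
      contMDiff_coe_sphere (n := 2)
    have h7 : ContDiff ℝ ∞ (fun w : Eu 3 => B w w) := B.contDiff.clm_apply contDiff_id
    exact (h7.contMDiff.comp h6).comp contMDiff_fst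
  exact h1.smul h5.contMDiffOn

lemma immersion_ver (r : ℝ) (hr : 0 < r) : Immersed 2 (ver r) := by
  intro p
  rw [ctr_eq, lrep_ver]
  change Function.Injective (fderiv ℝ (fr r p) 0)
  rw [injective_iff_map_eq_zero]
  intro v hv
  rw [fderiv_fr0] at hv
  have h1 : ⟪(2 * r) • B (p : Eu 3) (io p v), (2 * r) • B (p : Eu 3) (io p v)⟫ = 3 * r ^ 2 * ‖v‖ ^ 2 := by
    rw [inner_smul_left, inner_smul_right, inner_B, inner_pp, inner_p_io, inner_io_p,
      inner_io, conj_trivial, real_inner_self_eq_norm_sq]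
    ring
  rw [hv, inner_zero_left] at h1
  have h2 : ‖v‖ ^ 2 = 0 := by
    have : 0 < 3 * r ^ 2 := by positivity
    rcases mul_eq_zero.mp h1.symm with h | h
    · exact absurd h this.ne'
    · exact h
  exact norm_eq_zero.mp (pow_eq_zero_iff (by norm_num) |>.mp h2)

/-- short curves stay close -/
lemma idist_small (r δ : ℝ) (hr : 0 < r) (hδ : 0 < δ) (hδ2 : δ ^ 2 ≤ 3 * r ^ 2) (x y : S2)
    (h : idist (ver r) x y < ENNReal.ofReal δ) : ‖(y : Eu 3) - x‖ ≤ δ / r := by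
  unfold idist at h
  rw [iInf_lt_iff] at h
  obtain ⟨⟨γ, hγ, hγ0, hγ1⟩, hlen⟩ := h
  simp only at hlen
  set u : ℝ → ℝ := fun s => ‖((γ s : S2) : Eu 3) - x‖ ^ 2 with hu
  have hsum : ∀ s, ‖((γ s : S2) : Eu 3) + x‖ ^ 2 = 4 - u s := by
    intro s
    have h1 := norm_add_sq_real ((γ s : S2) : Eu 3) (x : Eu 3)
    have h2 := norm_sub_sq_real ((γ s : S2) : Eu 3) (x : Eu 3)
    rw [norm_p, norm_p] at h1 h2
    simp only [hu]
    rw [h1, h2]
    ring
  have hkey : ∀ s ∈ Icc (0 : ℝ) 1, u s * (4 - u s) < 4 / 3 * (δ ^ 2 / r ^ 2) := by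
    intro s hs
    have h1 : edist ((ver r ∘ γ) s) ((ver r ∘ γ) 0) ≤ eVariationOn (ver r ∘ γ) (Icc 0 1) :=
      eVariationOn.edist_le _ hs ⟨le_rfl, zero_le_one⟩
    have h2 : edist ((ver r ∘ γ) s) ((ver r ∘ γ) 0) < ENNReal.ofReal δ := lt_of_le_of_lt h1 hlen
    rw [edist_dist, ENNReal.ofReal_lt_ofReal_iff hδ, dist_eq_norm] at h2
    simp only [Function.comp_apply, hγ0, ver, ← smul_sub, norm_smul, Real.norm_eq_abs,
      abs_of_pos hr] at h2
    have h3 := norm_sub_V ((γ s : S2) : Eu 3) (x : Eu 3) (norm_p _) (norm_p _)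
    rw [hsum s] at h3
    have h4 : (r * ‖B ((γ s : S2) : Eu 3) ((γ s : S2) : Eu 3) - B (x : Eu 3) (x : Eu 3)‖) ^ 2 < δ ^ 2 := by
      apply pow_lt_pow_left₀ h2 (by positivity) (by norm_num)
    rw [mul_pow, h3] at h4
    have h5 : r ^ 2 * (3 / 4 * (u s * (4 - u s))) < δ ^ 2 := h4
    have h6 : 0 < r ^ 2 := by positivity
    have h7 : 3 / 4 * (u s * (4 - u s)) < δ ^ 2 / r ^ 2 := by
      rw [lt_div_iff₀ h6]
      linarith
    linarith
  have hδr : δ ^ 2 / r ^ 2 ≤ 3 := by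
    rw [div_le_iff₀ (by positivity)]
    exact hδ2
  have hne : ∀ s ∈ Icc (0 : ℝ) 1, u s ≠ 2 := by
    intro s hs h2
    have := hkey s hs
    rw [h2] at this
    linarith
  have hcont : ContinuousOn u (Icc 0 1) := by
    have h1 : ContinuousOn (fun s => ((γ s : S2) : Eu 3)) (Icc 0 1) :=
      continuous_subtype_val.comp_continuousOn hγ
    exact ((h1.sub continuousOn_const).norm).pow 2
  have hu0 : u 0 = 0 := by simp [hu, hγ0]
  have hu1 : u 1 < 2 := by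
    by_contra hcon
    push Not at hcon
    have := intermediate_value_Icc (zero_le_one' ℝ) hcont
    rw [hu0] at this
    obtain ⟨s, hs, hs2⟩ := this (show (2 : ℝ) ∈ Icc 0 (u 1) from ⟨by norm_num, hcon⟩)
    exact hne s hs hs2
  have hk1 := hkey 1 ⟨zero_le_one, le_rfl⟩
  have hu1n : 0 ≤ u 1 := by simp only [hu]; positivity
  have h8 : u 1 ≤ δ ^ 2 / r ^ 2 := by nlinarith
  have h9 : ‖(y : Eu 3) - x‖ ^ 2 ≤ (δ / r) ^ 2 := by
    rw [div_pow]
    simpa [hu, hγ1] using h8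
  exact (pow_le_pow_iff_left₀ (norm_nonneg _) (by positivity) (by norm_num)).mp h9

lemma complete_ver (r : ℝ) (hr : 0 < r) : IComplete (ver r) := by
  intro s hs
  have hc : CauchySeq s := by
    rw [Metric.cauchySeq_iff]
    intro ε hε
    set δ : ℝ := min r (r * ε / 2) with hδ
    have hδ0 : 0 < δ := lt_min hr (by positivity)
    have hδ1 : δ ^ 2 ≤ 3 * r ^ 2 := by
      have h1 : δ ≤ r := min_le_left _ _
      nlinarith [mul_self_nonneg r]
    obtain ⟨K, hK⟩ := hs (ENNReal.ofReal δ) (by simpa using hδ0)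
    refine ⟨K, fun i hi j hj => ?_⟩
    have h2 := idist_small r δ hr hδ0 hδ1 (s j) (s i) (hK j hj i hi)
    rw [Subtype.dist_eq, dist_eq_norm]
    have h3 : δ / r ≤ ε / 2 := by
      rw [div_le_iff₀ hr]
      calc δ ≤ r * ε / 2 := min_le_right _ _
        _ = ε / 2 * r := by ring
    linarith
  haveI : CompleteSpace S2 := isClosed_sphere.completeSpace_coe
  exact cauchySeq_tendsto_of_complete hc

lemma growth_ver (r : ℝ) (hr : 0 < r) : PolyGrowth 2 (ver r) := by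
  refine ⟨10 / (3 * r ^ 2), 0, fun p => ?_⟩
  rw [Asq_ver r hr]
  simp

/-- `|A|² = (5/6) |H|²` -/
lemma ratio_ver (r : ℝ) (hr : 0 < r) (p : S2) :
    Asq 2 (ver r) p = 5 / 6 * ‖Hvec 2 (ver r) p‖ ^ 2 := by
  rw [Asq_ver r hr, Hvec_ver r hr, norm_smul, norm_V, norm_neg, Real.norm_eq_abs, mul_one, sq_abs]
  field_simp
  norm_num

end Pool.Agent.Helper93.MCF
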