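import Pool.Agent.Helper93.MCF.Ster

/-!
# The Veronese map
-/

set_option autoImplicit false

namespace Pool.Agent.Helper93.MCF

open Set Filter Topology Metric
open scoped Manifold ContDiff RealInnerProductSpace

/-- the symmetric bilinear map polarizing the Veronese map -/
noncomputable def Bl : Eu 3 →ₗ[ℝ] Eu 3 →ₗ[ℝ] Eu 5 :=
  LinearMap.mk₂ ℝ (fun x y => WithLp.toLp 2
    ![√3 / 2 * (x 0 * y 1 + x 1 * y 0), √3 / 2 * (x 0 * y 2 + x 2 * y 0),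
      √3 / 2 * (x 1 * y 2 + x 2 * y 1), √3 / 2 * (x 0 * y 0 - x 1 * y 1),
      1 / 2 * (x 0 * y 0 + x 1 * y 1 - 2 * (x 2 * y 2))])
    (by intro a b c; ext i; fin_cases i <;> simp <;> ring)
    (by intro a b c; ext i; fin_cases i <;> simp <;> ring)
    (by intro a b c; ext i; fin_cases i <;> simp <;> ring)
    (by intro a b c; ext i; fin_cases i <;> simp <;> ring)

/-- the continuous bilinear map -/
noncomputable def B : Eu 3 →L[ℝ] Eu 3 →L[ℝ] Eu 5 :=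
  LinearMap.toContinuousLinearMap
    ((LinearMap.toContinuousLinearMap : (Eu 3 →ₗ[ℝ] Eu 5) ≃ₗ[ℝ] (Eu 3 →L[ℝ] Eu 5)).toLinearMap ∘ₗ Bl)

lemma B_apply (x y : Eu 3) : B x y = WithLp.toLp 2
    ![√3 / 2 * (x 0 * y 1 + x 1 * y 0), √3 / 2 * (x 0 * y 2 + x 2 * y 0),
      √3 / 2 * (x 1 * y 2 + x 2 * y 1), √3 / 2 * (x 0 * y 0 - x 1 * y 1),
      1 / 2 * (x 0 * y 0 + x 1 * y 1 - 2 * (x 2 * y 2))] := rfl

lemma B_symm (x y : Eu 3) : B x y = B y x := by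
  rw [B_apply, B_apply]
  ext i
  fin_cases i <;> simp <;> ring

/-- inner products of the values of `B` -/
lemma inner_B (x y z w : Eu 3) : ⟪B x y, B z w⟫ =
    3 / 4 * (⟪x, z⟫ * ⟪y, w⟫ + ⟪x, w⟫ * ⟪y, z⟫) - 1 / 2 * (⟪x, y⟫ * ⟪z, w⟫) := by
  have h3 : √3 * √3 = 3 := Real.mul_self_sqrt (by norm_num)
  rw [B_apply, B_apply]
  simp only [PiLp.inner_apply, Fin.sum_univ_five, Fin.sum_univ_three, RCLike.inner_apply,
    conj_trivial]
  simp
  linear_combination (1 / 4 * ((x 0 * y 1 + x 1 * y 0) * (z 0 * w 1 + z 1 * w 0) +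
    (x 0 * y 2 + x 2 * y 0) * (z 0 * w 2 + z 2 * w 0) +
    (x 1 * y 2 + x 2 * y 1) * (z 1 * w 2 + z 2 * w 1) +
    (x 0 * y 0 - x 1 * y 1) * (z 0 * w 0 - z 1 * w 1))) * h3

/-- `|V(x) - V(y)|² = (3/4) |x-y|² |x+y|²` on the unit sphere -/
lemma norm_sub_V (x y : Eu 3) (hx : ‖x‖ = 1) (hy : ‖y‖ = 1) :
    ‖B x x - B y y‖ ^ 2 = 3 / 4 * (‖x - y‖ ^ 2 * ‖x + y‖ ^ 2) := by
  have hx' : ⟪x, x⟫ = 1 := by rw [real_inner_self_eq_norm_sq, hx]; norm_num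
  have hy' : ⟪y, y⟫ = 1 := by rw [real_inner_self_eq_norm_sq, hy]; norm_num
  rw [← real_inner_self_eq_norm_sq, ← real_inner_self_eq_norm_sq, ← real_inner_self_eq_norm_sq]
  simp only [inner_sub_left, inner_sub_right, inner_add_left, inner_add_right, inner_B]
  rw [real_inner_comm y x, hx', hy']
  ring

end Pool.Agent.Helper93.MCF
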